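import Pool.Agent.P.MP_c2be6c_an.U.Rad

/-! The coupling operator and the Boolean algebra attached to a subspace of `ℓ²(ℕ, H)`. -/

open MeasureTheory Filter Topology
open scoped InnerProductSpace ENNReal

set_option linter.unusedSectionVars false
set_option linter.dupNamespace false

namespace Pool.Agent.P.MP_c2be6c_an.U

variable {Ω : Type} [MeasurableSpace Ω] {μ : Measure Ω} [IsProbabilityMeasure μ]
variable {H : Type} [NormedAddCommGroup H] [InnerProductSpace ℂ H] [CompleteSpace H]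

variable {G : Type} [NormedAddCommGroup G] [InnerProductSpace ℂ G] [CompleteSpace G]

/-- The structure of `ℓ²(ℕ, H)` that is used in the construction. -/
structure Fr (H G : Type) [NormedAddCommGroup H] [InnerProductSpace ℂ H] [CompleteSpace H]
    [NormedAddCommGroup G] [InnerProductSpace ℂ G] [CompleteSpace G] where
  p : G →L[ℂ] H
  e : H →L[ℂ] G
  ρ : ℕ → ll H →L[ℂ] G
  am : (H →L[ℂ] H) → G →L[ℂ] G
  p_e : ∀ ξ, p (e ξ) = ξ
  p_le : ∀ x, ‖p x‖ ≤ ‖x‖
  e_le : ∀ ξ, ‖e ξ‖ ≤ ‖ξ‖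
  p_ρ : ∀ m y, p (ρ m y) = 0
  ρ_le : ∀ m y, ‖ρ m y‖ ≤ ‖y‖
  ρ_single : ∀ k m ξ, ρ k (lp.single 2 (Nat.pair m 0) ξ) = 0
  col : ∀ m x, ∃ y, ‖y‖ ≤ ‖x‖ ∧ DD y = dl m • y ∧ ∀ k, ρ k y = if k = m then x - e (p x) else 0
  p_am : ∀ b x, p (am b x) = b (p x)
  am_e : ∀ b ξ, am b (e ξ) = e (b ξ)
  am_ρ : ∀ b m y, am b (ρ m y) = ρ m (amp b y)

theorem Fr.lf_p_e (F : Fr H G) (g : Lp H 2 μ) : lf F.p (lf F.e g) = g := by
  have : (1 : Lp H 2 μ →L[ℂ] Lp H 2 μ) = lf (F.p.comp F.e) :=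
    Loc.eq_lf (fun _ _ _ h => h) fun ξ => by rw [ContinuousLinearMap.comp_apply, F.p_e]; rfl
  rw [lf_lf, ← this]
  rfl

theorem Fr.lf_am_e (F : Fr H G) (b : H →L[ℂ] H) (g : Lp H 2 μ) :
    lf (F.am b) (lf F.e g) = lf F.e (lf b g) := by
  rw [lf_lf, lf_lf, show (F.am b).comp F.e = F.e.comp b from ContinuousLinearMap.ext (F.am_e b)]

theorem tn_total {u : ℕ → Lp ℂ 2 μ} (hu : ∀ ψ, (∀ m, ⟪ψ, u m⟫_ℂ = 0) → ψ = 0) {z : Lp H 2 μ}
    (h : ∀ m ξ, ⟪z, tn (u m) ξ⟫_ℂ = 0) : z = 0 := by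
  have h1 : ∀ φ ξ, ⟪z, tn φ ξ⟫_ℂ = 0 := fun φ ξ => by
    have := hu ((tn.flip ξ).adjoint z) fun m => by
      rw [ContinuousLinearMap.adjoint_inner_left]; exact h m ξ
    rw [← ContinuousLinearMap.flip_apply, ← ContinuousLinearMap.adjoint_inner_left, this,
      inner_zero_left]
  have h2 : innerSL ℂ z = 0 := tn_ext fun S hS ξ => by rw [P_tn hS]; exact h1 _ _
  simpa using DFunLike.congr_fun h2 z

theorem exists_sum (t : ℕ → H →L[ℂ] G) (h : ∀ m g, ‖t m g‖ ≤ (1 / 2) ^ m * ‖g‖) :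
    ∃ T : H →L[ℂ] G, ∀ g, HasSum (fun m => t m g) (T g) :=
  ⟨_, fun g => (ContinuousLinearMap.apply ℂ G g).hasSum (Summable.of_norm_bounded
    summable_geometric_two fun m => (t m).opNorm_le_bound (by positivity) (h m)).hasSum⟩

/-- A Rademacher system and a total sequence in which every term is repeated. -/
structure Dat (μ : Measure Ω) extends Rad μ where
  u : ℕ → Lp ℂ 2 μ
  le : ∀ m, ‖u m‖ ≤ 1
  rep : ∀ m N, ∃ m' ≥ N, u m' = u m
  total : ∀ ψ, (∀ m, ⟪ψ, u m⟫_ℂ = 0) → ψ = 0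

namespace Dat

variable (D : Dat μ) (F : Fr H G)

theorem exists_Ec : ∃ T : Lp H 2 μ →L[ℂ] Lp G 2 μ, ∀ g,
    HasSum (fun m => (1 / 2 : ℂ) ^ m • tn (D.u m) (F.ρ m (D.RR.adjoint g))) (T g) :=
  exists_sum (fun m => (1 / 2 : ℂ) ^ m • (tn (D.u m)).comp ((F.ρ m).comp D.RR.adjoint))
    fun m g => by
      change ‖(1 / 2 : ℂ) ^ m • tn (D.u m) (F.ρ m (D.RR.adjoint g))‖ ≤ _
      rw [norm_smul, norm_tn]
      exact mul_le_mul (by simp) ((mul_le_of_le_one_left (norm_nonneg _) (D.le m)).trans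
        ((F.ρ_le _ _).trans (norm_adj_le D.RR_norm g))) (by positivity) (by positivity)

/-- The coupling operator. -/
noncomputable def Ec : Lp H 2 μ →L[ℂ] Lp G 2 μ := (D.exists_Ec F).choose

theorem hasSum_Ec (g : Lp H 2 μ) :
    HasSum (fun m => (1 / 2 : ℂ) ^ m • tn (D.u m) (F.ρ m (D.RR.adjoint g))) (D.Ec F g) :=
  (D.exists_Ec F).choose_spec g

theorem p_Ec (g : Lp H 2 μ) : lf F.p (D.Ec F g) = 0 :=
  ((lf F.p).hasSum (D.hasSum_Ec F g)).unique (by
    simpa only [map_smul, lf_tn, F.p_ρ, map_zero, smul_zero] using hasSum_zero)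

theorem Ec_am (b : H →L[ℂ] H) (g : Lp H 2 μ) : D.Ec F (lf b g) = lf (F.am b) (D.Ec F g) :=
  (D.hasSum_Ec F _).unique (by
    simpa only [map_smul, lf_tn, Rad.adj_lf, F.am_ρ] using (lf (F.am b)).hasSum (D.hasSum_Ec F g))

theorem Ec_W (m : ℕ) (ξ : H) : D.Ec F (tn (D.W {Nat.pair m 0}) ξ) = 0 :=
  (D.hasSum_Ec F _).unique (by
    simpa only [← Rad.RR_single, Rad.adj_RR, F.ρ_single, map_zero, smul_zero] using hasSum_zero)

/-- The correction term. -/
noncomputable def Cr : Lp H 2 μ →L[ℂ] Lp G 2 μ := (lf F.e).comp (1 - D.Dl) + D.Ec F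

/-- The damped and coupled operator. -/
noncomputable def Gm : Lp G 2 μ →L[ℂ] Lp G 2 μ := 1 - (D.Cr F).comp (lf F.p)

theorem Gm_apply (z : Lp G 2 μ) :
    D.Gm F z = z - (lf F.e (lf F.p z - D.Dl (lf F.p z)) + D.Ec F (lf F.p z)) := rfl

theorem p_Gm (z : Lp G 2 μ) : lf F.p (D.Gm F z) = D.Dl (lf F.p z) := by
  rw [Gm_apply, map_sub, map_add, F.lf_p_e, p_Ec, add_zero, sub_sub_cancel]

theorem Gm_e (g : Lp H 2 μ) : D.Gm F (lf F.e g) = lf F.e (D.Dl g) - D.Ec F g := by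
  rw [Gm_apply, F.lf_p_e, map_sub, ← sub_sub, sub_sub_cancel]

theorem Gm_am (b : H →L[ℂ] H) (z : Lp G 2 μ) :
    D.Gm F (lf (F.am b) z) = lf (F.am b) (D.Gm F z) := by
  have : lf F.p (lf (F.am b) z) = lf b (lf F.p z) := by
    rw [lf_lf, lf_lf, show F.p.comp (F.am b) = b.comp F.p from ContinuousLinearMap.ext (F.p_am b)]
  simp only [Gm_apply, this, map_sub, map_add, F.lf_am_e, Rad.Dl_lf, Ec_am]

theorem Gm_inj {z : Lp G 2 μ} (h : D.Gm F z = 0) : z = 0 := by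
  have : lf F.p z = 0 := D.good.inj _ (by rw [← p_Gm, h, map_zero])
  simpa only [Gm_apply, this, map_zero, sub_zero, add_zero] using h

theorem Gm_low (S : Set Ω) (hS : MeasurableSet S) (h0 : μ Sᶜ ≠ 0) :
    ∃ C, 0 ≤ C ∧ ∀ z ∈ LS S, ‖z‖ ≤ C * ‖D.Gm F z‖ := by
  obtain ⟨C, hC, h⟩ := (D.good (Y := H)).low S hS h0
  refine ⟨1 + ‖D.Cr F‖ * C, by positivity, fun z hz => ?_⟩
  have h1 := h _ (loc_lf F.p S hS z hz)
  rw [← p_Gm] at h1
  calc ‖z‖ = ‖D.Gm F z + D.Cr F (lf F.p z)‖ := congrArg norm (sub_add_cancel z _).symm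
    _ ≤ _ := (norm_add_le _ _).trans (by
        rw [add_mul, one_mul, mul_assoc]
        refine add_le_add le_rfl (((D.Cr F).le_opNorm _).trans ?_)
        gcongr
        exact h1.trans (by gcongr; exact norm_lf_le F.p_le _))

theorem dense0 (z : Lp G 2 μ) (h : ∀ g, ⟪z, ((D.Gm F).comp (lf F.e)) g⟫_ℂ = 0) : z = 0 := by
  simp only [ContinuousLinearMap.comp_apply, Gm_e, inner_sub_right, sub_eq_zero] at h
  have h1 : ∀ m x, ‖⟪z, tn (D.u m) (x - F.e (F.p x))⟫_ℂ‖ ≤ ‖z‖ * ‖x‖ * (1 / 2) ^ m := by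
    intro m x
    obtain ⟨y, a1, a2, a3⟩ := F.col m x
    have a4 : D.Ec F (D.RR y) = (1 / 2 : ℂ) ^ m • tn (D.u m) (x - F.e (F.p x)) := by
      refine (D.hasSum_Ec F _).unique ?_
      have := hasSum_single (f := fun k => (1 / 2 : ℂ) ^ k •
        tn (D.u k) (F.ρ k (D.RR.adjoint (D.RR y)))) m fun k hk => by
          rw [Rad.adj_RR, a3, if_neg hk, map_zero, smul_zero]
      rwa [show F.ρ m (D.RR.adjoint (D.RR y)) = x - F.e (F.p x) by
        rw [Rad.adj_RR, a3, if_pos rfl]] at this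
    have a5 := congrArg norm (h (D.RR y))
    rw [a4, Rad.Dl_RR, a2, map_smul, map_smul, inner_smul_right, inner_smul_right, norm_mul,
      norm_mul, norm_dl, norm_pow, show (1 / 4 : ℝ) = 1 / 2 * (1 / 2) by norm_num, mul_pow,
      mul_assoc, show ‖(1 / 2 : ℂ)‖ = 1 / 2 by simp, mul_right_inj' (by positivity)] at a5
    rw [← a5, mul_comm]
    gcongr
    exact (norm_inner_le_norm _ _).trans (by
      gcongr; exact (norm_lf_le F.e_le _).trans ((D.RR_norm y).trans_le a1))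
  have h2 : ∀ m x, ⟪z, tn (D.u m) (x - F.e (F.p x))⟫_ℂ = 0 := by
    intro m x
    have hl : Tendsto (fun m : ℕ => ‖z‖ * ‖x‖ * (1 / 2 : ℝ) ^ m) atTop (𝓝 0) := by
      simpa using (tendsto_pow_atTop_nhds_zero_of_lt_one (r := (1 / 2 : ℝ)) (by norm_num)
        (by norm_num)).const_mul (‖z‖ * ‖x‖)
    refine norm_le_zero_iff.1 (le_of_forall_pos_le_add fun ε hε => ?_)
    obtain ⟨N, hN⟩ := eventually_atTop.1 (hl.eventually (ge_mem_nhds hε))
    obtain ⟨k, a1, a2⟩ := D.rep m N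
    rw [← a2, zero_add]
    exact (h1 k x).trans (hN k a1)
  have h3 : (lf F.e).adjoint z = 0 := D.good.dense _ fun g => by
    rw [ContinuousLinearMap.adjoint_inner_left, h]
    refine ((innerSL ℂ z).hasSum (D.hasSum_Ec F g)).unique ?_
    have : ∀ m y, ⟪z, tn (D.u m) (F.ρ m y)⟫_ℂ = 0 := fun m y => by
      simpa only [F.p_ρ, map_zero, sub_zero] using h2 m (F.ρ m y)
    simpa only [map_smul, innerSL_apply_apply, this, smul_zero] using hasSum_zero
  refine tn_total D.total fun m x => ?_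
  rw [← sub_add_cancel x (F.e (F.p x)), map_add, inner_add_right, h2, ← lf_tn,
    ← ContinuousLinearMap.adjoint_inner_left, h3, inner_zero_left, add_zero]

variable (Y : Submodule ℂ G) [CompleteSpace Y]

/-- The operator that defines the Boolean algebra. -/
noncomputable def Lam : Lp Y 2 μ →L[ℂ] Lp G 2 μ := (D.Gm F).comp (lf Y.subtypeL)

theorem Lam_apply (f : Lp Y 2 μ) : D.Lam F Y f = D.Gm F (lf Y.subtypeL f) := rfl

variable {Y}

theorem lift_Lam {a : H →L[ℂ] H} (ha : ∀ x ∈ Y, F.am a x ∈ Y) (f : Lp Y 2 μ) :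
    lf (F.am a) (D.Lam F Y f) = D.Lam F Y (lf (((F.am a).comp Y.subtypeL).codRestrict Y
      fun x => ha x x.2) f) := by
  rw [Lam_apply, Lam_apply, ← Gm_am, lf_lf, lf_lf]
  rfl

variable (hY : ∀ ξ, F.e ξ ∈ Y)
include hY

theorem sub_e (g : Lp H 2 μ) : lf Y.subtypeL (lf (F.e.codRestrict Y hY) g) = lf F.e g :=
  lf_lf _ _ _

theorem good_Lam : Good (D.Lam F Y) where
  inj f h := norm_le_zero_iff.1 ((le_norm_lf (L := Y.subtypeL) (fun _ => le_rfl) f).trans_eq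
    (norm_eq_zero.2 (D.Gm_inj F h)))
  dense z h := D.dense0 F z fun g => by
    rw [ContinuousLinearMap.comp_apply, ← sub_e F hY]; exact h _
  low S hS h0 := by
    obtain ⟨C, hC, h⟩ := D.Gm_low F S hS h0
    exact ⟨C, hC, fun f hf => (le_norm_lf (L := Y.subtypeL) (fun _ => le_rfl) f).trans
      (h _ (loc_lf _ S hS f hf))⟩

theorem rigid_Lam {T : Lp G 2 μ →L[ℂ] Lp G 2 μ} {N : Lp Y 2 μ →L[ℂ] Lp Y 2 μ}
    (hN : Loc N) (h : ∀ f, T (D.Lam F Y f) = D.Lam F Y (N f)) :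
    ∃ c : H →L[ℂ] H, T = lf (F.am c) ∧ ∀ x ∈ Y, F.am c x ∈ Y := by
  obtain ⟨N', h1, h2⟩ : ∃ N' : Lp H 2 μ →L[ℂ] Lp G 2 μ, Loc N' ∧
      ∀ g, D.Gm F (N' g) = T (D.Gm F (lf F.e g)) :=
    ⟨(lf Y.subtypeL).comp (N.comp (lf (F.e.codRestrict Y hY))),
      (loc_lf _).comp (hN.comp (loc_lf _)), fun g => by rw [← sub_e F hY]; exact (h _).symm⟩
  have h3 : ∀ m ξ, ‖D.Gm F (N' (tn (D.W {Nat.pair m 0}) ξ))‖ ≤ ‖T‖ * ‖ξ‖ * (1 / 4) ^ m := by
    intro m ξ
    rw [h2, Gm_e, Ec_W, sub_zero, Rad.Dl_W, map_smul, map_smul, norm_smul, norm_dl,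
      Nat.unpair_pair, mul_comm]
    gcongr
    exact (T.le_opNorm _).trans (by
      gcongr; exact (norm_lf_le F.e_le _).trans (by rw [norm_tn, Rad.norm_W, one_mul]))
  obtain ⟨c, hc⟩ := D.const_of ((loc_lf F.p).comp h1) fun ξ => ⟨‖T‖ * ‖ξ‖, fun m => by
    rw [ContinuousLinearMap.comp_apply, ← p_Gm]
    exact (norm_lf_le F.p_le _).trans (h3 m ξ)⟩
  have h4 : N' = lf (F.e.comp c) := h1.eq_lf fun ξ => by
    have hl : Tendsto (fun m : ℕ => (‖T‖ * ‖ξ‖ + ‖c ξ‖) * (1 / 4 : ℝ) ^ m) atTop (𝓝 0) := by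
      simpa using (tendsto_pow_atTop_nhds_zero_of_lt_one (r := (1 / 4 : ℝ)) (by norm_num)
        (by norm_num)).const_mul (‖T‖ * ‖ξ‖ + ‖c ξ‖)
    refine sub_eq_zero.1 (norm_le_zero_iff.1 (ge_of_tendsto' hl fun m => ?_))
    refine (D.le_norm_Mr (Nat.pair m 0) _).trans ?_
    have a1 : lf F.p (N' (tn (D.W {Nat.pair m 0}) ξ)) = tn (D.W {Nat.pair m 0}) (c ξ) :=
      (DFunLike.congr_fun hc _).trans (lf_tn _ _ _)
    have a2 := D.Gm_apply F (N' (tn (D.W {Nat.pair m 0}) ξ))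
    rw [a1, Ec_W, add_zero, Rad.Dl_W, map_sub, map_smul, lf_tn, Nat.unpair_pair, ← sub_add,
      ← sub_eq_iff_eq_add] at a2
    rw [map_sub, ← D.Mr_comm h1, Rad.Mr_one, Rad.Mr_one, ContinuousLinearMap.comp_apply, ← a2,
      add_mul]
    refine (norm_sub_le _ _).trans (add_le_add (h3 m ξ) ?_)
    rw [norm_smul, norm_dl, norm_tn, Rad.norm_W, one_mul, mul_comm]
    gcongr
    exact F.e_le _
  have h5 : T = lf (F.am c) := ext_of_dense (D.dense0 F) fun g => by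
    rw [ContinuousLinearMap.comp_apply, ← h2, h4, ← Gm_am, F.lf_am_e, lf_lf]
  refine ⟨c, h5, fun x hx => ?_⟩
  have h6 : lf Y.subtypeL (N (tn (one μ) ⟨x, hx⟩)) = tn (one μ) (F.am c x) := by
    refine sub_eq_zero.1 (D.Gm_inj F ?_)
    have := h (tn (one μ) ⟨x, hx⟩)
    rw [h5, Lam_apply, Lam_apply, ← Gm_am, lf_tn, lf_tn] at this
    rw [map_sub, ← this]
    exact sub_self _
  rw [← D.adj_one (F.am c x), ← h6, adj_tn_lf]
  exact Subtype.prop _

end Dat

/-! ### Transport to the sequence space and the subspace attached to an algebra -/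

open TopologicalSpace

theorem exists_basis [SeparableSpace G] [Nontrivial G] : ∃ (φ : ℕ → G) (k : ℕ → ℕ),
    (∀ a b, ⟪φ a, φ b⟫_ℂ = 0 ∨ φ a = φ b) ∧ (∀ a, ‖φ a‖ = 1) ∧
    (∀ ψ, (∀ a, ⟪ψ, φ a⟫_ℂ = 0) → ψ = 0) ∧ (∀ a b, φ a = φ b → k a = k b → a = b) ∧
    ∀ a j, ∃ b, φ b = φ a ∧ k b = j := by
  obtain ⟨w, b, -⟩ := exists_hilbertBasis ℂ G
  have ht : ∀ ψ, (∀ i, ⟪ψ, b i⟫_ℂ = 0) → ψ = 0 := fun ψ h => b.repr.injective (lp.ext
    (funext fun i => by rw [b.repr_apply_apply, inner_eq_zero_symm.1 (h i), map_zero]; rfl))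
  have h1 : Countable w := Pairwise.countable_of_isOpen_disjoint
    (s := fun i => Metric.ball (b i) (1 / 2)) (fun i j hij => Metric.ball_disjoint_ball (by
      have := norm_inner_le_norm (𝕜 := ℂ) (b i) (b i - b j)
      rw [inner_sub_right, b.orthonormal.2 hij, inner_self_eq_norm_sq_to_K, b.orthonormal.1 i] at this
      rw [add_halves, dist_eq_norm]
      simpa using this)) (fun _ => Metric.isOpen_ball)
    fun _ => Metric.nonempty_ball.2 (by norm_num)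
  have h2 : Nonempty w := by
    by_contra h
    obtain ⟨x, hx⟩ := exists_ne (0 : G)
    exact hx (ht x fun i => absurd ⟨i⟩ h)
  obtain ⟨e⟩ : Nonempty (ℕ ≃ w × ℕ) := nonempty_equiv_of_countable
  refine ⟨fun a => b (e a).1, fun a => (e a).2, fun a c => ?_, fun a => b.orthonormal.1 _,
    fun ψ h => ht ψ fun i => by simpa using h (e.symm (i, 0)), fun a c h3 h4 =>
      e.injective (Prod.ext (b.orthonormal.linearIndependent.injective h3) h4),
    fun a j => ⟨e.symm ((e a).1, j), by simp, by simp⟩⟩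
  exact (ne_or_eq (e a).1 (e c).1).imp (fun h => b.orthonormal.2 h) (congrArg b)

theorem exists_unitary [IsSeparable μ] (h : Atomless μ) (s : ℕ → H →L[ℂ] G)
    (hs : ∀ i j ξ η, ⟪s i ξ, s j η⟫_ℂ = if i = j then ⟪ξ, η⟫_ℂ else 0)
    (ht : ∀ x, (∀ j ξ, ⟪x, s j ξ⟫_ℂ = 0) → x = 0) :
    ∃ (_ : Dat μ) (U : ll H →L[ℂ] Lp G 2 μ), (∀ x, ‖U x‖ = ‖x‖) ∧ (∀ x, U.adjoint (U x) = x) ∧
      (∀ z, U (U.adjoint z) = z) ∧ ∀ (b : H →L[ℂ] H) (B : G →L[ℂ] G),
        (∀ j ξ, B (s j ξ) = s j (b ξ)) → ∀ x, U (amp b x) = lf B (U x) := by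
  obtain ⟨R⟩ := h.rad
  have : Fact ((2 : ℝ≥0∞) ≠ ∞) := ⟨by norm_num⟩
  have : Nontrivial (Lp ℂ 2 μ) := ⟨R.W ∅, 0, fun h => by simpa [h] using R.norm_W ∅⟩
  obtain ⟨φ, k, h1, h2, h3, h4, h5⟩ := exists_basis (G := Lp ℂ 2 μ)
  obtain ⟨U, a1, a2, a3, a4⟩ := exists_syn (fun n => (tn (φ n)).comp (s (k n))) fun i j ξ η => by
    rw [ContinuousLinearMap.comp_apply, ContinuousLinearMap.comp_apply, inner_tn, hs]
    by_cases e : i = j
    · simp [e, inner_self_eq_norm_sq_to_K, h2]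
    · rcases h1 i j with e' | e'
      · rw [e', zero_mul, if_neg e]
      · rw [if_neg fun e'' => e (h4 i j e' e''), mul_zero, if_neg e]
  refine ⟨⟨R, fun m => φ m.unpair.1, fun m => (h2 _).le, fun m N =>
    ⟨Nat.pair m.unpair.1 N, Nat.right_le_pair _ _, by simp⟩,
    fun ψ h => h3 ψ fun a => by simpa using h (Nat.pair a 0)⟩, U, a1, a4, fun z => ?_,
    fun b B hB x => ?_⟩
  · refine (sub_eq_zero.1 (tn_total h3 fun a x => ?_)).symm
    rw [← ContinuousLinearMap.adjoint_inner_left, ht ((tn (φ a)).adjoint _) fun j ξ => ?_,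
      inner_zero_left]
    obtain ⟨n, e1, e2⟩ := h5 a j
    rw [ContinuousLinearMap.adjoint_inner_left, ← e1, ← e2,
      ← ContinuousLinearMap.comp_apply (tn (φ n)), ← a2,
      ← ContinuousLinearMap.adjoint_inner_left, map_sub, a4, sub_self, inner_zero_left]
  · exact DFunLike.congr_fun (lp_ext (A := U.comp (amp b)) (B := (lf B).comp U) fun i ξ => by
      simp only [ContinuousLinearMap.comp_apply, amp_single, a2, lf_tn, hB]) x

theorem core [Nontrivial H] (h : Atomless μ) (D : Dat μ) (F : Fr H G) (Y : Submodule ℂ G)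
    [CompleteSpace Y] (hY : ∀ ξ, F.e ξ ∈ Y) (U : ll H →L[ℂ] Lp G 2 μ) (h1 : ∀ x, ‖U x‖ = ‖x‖)
    (h2 : ∀ x, U.adjoint (U x) = x) (h3 : ∀ z, U (U.adjoint z) = z)
    (h4 : ∀ b x, U (amp b x) = lf (F.am b) (U x)) :
    ∃ E : Set (Submodule ℂ (ll H)), IsSCBA E ∧ Represents μ E ∧
      ∀ T, T ∈ Alg E ↔ ∃ c, (∀ x ∈ Y, F.am c x ∈ Y) ∧ T = amp c := by
  have g0 := D.good_Lam F hY
  have g : Good (U.adjoint.comp (D.Lam F Y)) :=
    { inj := fun f hf => g0.inj f (by rw [← h3 (D.Lam F Y f)]; exact (congrArg U hf).trans U.map_zero)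
      dense := fun y hy => by
        rw [← h2 y, g0.dense (U y) fun f => by
          rw [← ContinuousLinearMap.adjoint_inner_right]; exact hy f, map_zero]
      low := fun S hS h0 => by
        obtain ⟨C, hC, hl⟩ := g0.low S hS h0
        exact ⟨C, hC, fun f hf => by rw [ContinuousLinearMap.comp_apply, ← h1, h3]; exact hl f hf⟩ }
  have : Nontrivial Y := by
    obtain ⟨ξ, hξ⟩ := exists_ne (0 : H)
    refine ⟨⟨_, hY ξ⟩, 0, fun e => hξ ?_⟩
    rw [← F.p_e ξ, show F.e ξ = 0 from congrArg Subtype.val e, map_zero]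
  refine ⟨_, g.isSCBA, g.represents, fun T => ⟨fun hT => ?_, ?_⟩⟩
  · obtain ⟨A, hA, a1, a2⟩ := h.split
    obtain ⟨N, hN, e⟩ := g.lift hA a1 a2 hT
    obtain ⟨c, b1, b2⟩ := D.rigid_Lam F hY (T := U.comp (T.comp U.adjoint)) hN fun f =>
      (congrArg U (e f)).trans (h3 _)
    refine ⟨c, b2, ContinuousLinearMap.ext fun x => ?_⟩
    rw [← h2 (amp c x), h4, ← b1, ContinuousLinearMap.comp_apply, ContinuousLinearMap.comp_apply,
      h2, h2]
  · rintro ⟨c, hc, rfl⟩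
    refine alg_of_lift (loc_lf (((F.am c).comp Y.subtypeL).codRestrict Y fun x => hc x x.2))
      fun f => ?_
    rw [ContinuousLinearMap.comp_apply, ContinuousLinearMap.comp_apply, ← D.lift_Lam F hc f,
      ← h2 (amp c _), h4, h3]

theorem exists_row (m : ℕ) (c : ℕ → Prop) [DecidablePred c] : ∃ T : ll H →L[ℂ] ll H,
    (∀ x j, T x j = if c j then 0 else x (Nat.pair m j)) ∧ ∀ x, ‖T x‖ ≤ ‖x‖ := by
  obtain ⟨T, h1, h2⟩ := exists_wc (fun j => if c j then 0 else ContinuousLinearMap.id ℂ H)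
    (Nat.pair m) zero_le_one
    (fun n => by split_ifs; exacts [by simp, ContinuousLinearMap.norm_id_le])
    fun _ _ _ _ h => (Nat.pair_eq_pair.1 h).2
  exact ⟨T, fun x j => by rw [h1]; split_ifs <;> rfl, by simpa using h2⟩

theorem exists_col (m : ℕ) (x : ll H) : ∃ y : ll H, ‖y‖ ≤ ‖x‖ ∧
    ∀ n, y n = if n.unpair.1 = m then x n.unpair.2 else 0 := by
  obtain ⟨T, h1, h2⟩ := exists_wc (fun n : ℕ => if n.unpair.1 = m then
    ContinuousLinearMap.id ℂ H else 0) (fun n => n.unpair.2) zero_le_one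
    (fun n => by split_ifs; exacts [ContinuousLinearMap.norm_id_le, by simp])
    fun a ha b hb h => Nat.pairEquiv.symm.injective (Prod.ext
      ((not_not.1 fun h => ha (if_neg h)).trans (not_not.1 fun h => hb (if_neg h)).symm) h)
  exact ⟨T x, by simpa using h2 x, fun n => by rw [h1]; split_ifs <;> rfl⟩

theorem exists_fr : ∃ F : Fr H (ll H), (∀ ξ, F.e ξ = lp.single 2 0 ξ) ∧ ∀ b, F.am b = amp b := by
  choose ρ h1 h2 using fun m => exists_row (H := H) m fun j => j = 0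
  refine ⟨{
    p := lp.evalCLM ℂ (fun _ => H) 2 0
    e := lp.singleContinuousLinearMap ℂ (fun _ => H) 2 0
    ρ := ρ
    am := amp
    p_e := lp.single_apply_self (E := fun _ : ℕ => H) 2 0
    p_le := fun x => lp.norm_apply_le_norm (by norm_num) x 0
    e_le := fun ξ => (lp.norm_single (E := fun _ : ℕ => H) (by norm_num) 0 ξ).le
    p_ρ := fun m y => (h1 m y 0).trans (if_pos rfl)
    ρ_le := h2
    ρ_single := fun k m ξ => lp.ext (funext fun j => ?_)
    col := fun m x => ?_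
    p_am := fun b x => amp_apply b x 0
    am_e := fun b ξ => amp_single b 0 ξ
    am_ρ := fun b m y => lp.ext (funext fun j => ?_) }, fun _ => rfl, fun _ => rfl⟩
  · rw [h1]
    split_ifs with h
    · rfl
    · exact lp.single_apply_ne (E := fun _ : ℕ => H) _ _ _ fun e => h (Nat.pair_eq_pair.1 e).2
  · obtain ⟨y, a1, a2⟩ := exists_col m x
    refine ⟨y, a1, lp.ext (funext fun n => ?_), fun k => lp.ext (funext fun j => ?_)⟩
    · rw [DD_apply, lp.coeFn_smul, Pi.smul_apply, a2]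
      split_ifs with h
      · rw [h]
      · rw [smul_zero, smul_zero]
    · rw [h1, a2, Nat.unpair_pair]
      by_cases hk : k = m
      · rw [if_pos hk, if_pos hk, lp.coeFn_sub, Pi.sub_apply]
        change _ = x j - lp.single (E := fun _ : ℕ => H) 2 0 (x 0) j
        split_ifs with h
        · rw [h, lp.single_apply_self, sub_self]
        · rw [lp.single_apply_ne _ _ _ h, sub_zero]
      · rw [if_neg hk, if_neg hk, ite_self]; rfl
  · rw [amp_apply, h1, h1, amp_apply]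
    split_ifs
    · exact map_zero b
    · rfl

theorem separable_ll [SeparableSpace H] : SeparableSpace (ll H) := by
  rw [← isSeparable_univ_iff]
  refine (IsSeparable.iUnion fun n : ℕ => isSeparable_range
    (lp.singleContinuousLinearMap ℂ (fun _ : ℕ => H) 2 n).continuous).span (R := ℂ).closure.mono
    fun x _ => ?_
  refine mem_closure_of_tendsto (lp.hasSum_single (by norm_num) x) (Eventually.of_forall fun s => ?_)
  exact Submodule.sum_mem _ fun n _ => Submodule.subset_span (Set.mem_iUnion.2 ⟨n, x n, rfl⟩)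

theorem norm_amp_sub (a b : H →L[ℂ] H) (x : ll H) :
    ∑' n, ‖a (x n) - b (x n)‖ ^ 2 = ‖amp a x - amp b x‖ ^ 2 := by
  simpa using (hasSum_sq (amp a x - amp b x)).tsum_eq

theorem exists_sub [SeparableSpace H] (A : Subalgebra ℂ (H →L[ℂ] H))
    (hA : UltrastronglyClosed (A : Set (H →L[ℂ] H))) : ∃ Y : Submodule ℂ (ll H),
    IsClosed (Y : Set (ll H)) ∧ (∀ ξ, lp.single 2 0 ξ ∈ Y) ∧
      ∀ c, (∀ x ∈ Y, amp c x ∈ Y) ↔ c ∈ A := by
  have := separable_ll (H := H)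
  have := UniformSpace.secondCountable_of_separable (ll H)
  let Q : ll H → ll H → Prop := fun x y => ∀ a ∈ A, ⟪y, amp a x⟫_ℂ = 0
  have : Nonempty {p : ll H × ll H // Q p.1 p.2} := ⟨⟨0, fun _ _ => inner_zero_left _⟩⟩
  obtain ⟨v, hv⟩ := exists_dense_seq {p : ll H × ll H // Q p.1 p.2}
  choose ρ h1 _ using fun m => exists_row (H := H) m fun _ => False
  simp only [if_false] at h1
  have h2 : ∀ m b x, ρ m (amp b x) = amp b (ρ m x) := fun m b x =>
    lp.ext (funext fun j => by rw [amp_apply, h1, h1, amp_apply])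
  let Y : Submodule ℂ (ll H) := ⨅ k, ⨅ y : {y // Q (v k).1.1 y}, ((innerSL ℂ y.1).comp (ρ (k + 1))).ker
  have hY : ∀ x, x ∈ Y ↔ ∀ k y, Q (v k).1.1 y → ⟪y, ρ (k + 1) x⟫_ℂ = 0 := fun x => by
    simp only [Y, Submodule.mem_iInf, Subtype.forall]
    rfl
  refine ⟨Y, ?_, fun ξ => (hY _).2 fun k y _ => ?_, fun c => ⟨fun hc => hA c fun x₀ hx₀ ε hε => ?_,
    fun hc x hx => (hY _).2 fun k y hy => ?_⟩⟩
  · simp only [Y, Submodule.coe_iInf]
    exact isClosed_iInter fun k => isClosed_iInter fun y => ContinuousLinearMap.isClosed_ker _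
  · rw [show ρ (k + 1) (lp.single 2 0 ξ) = 0 from lp.ext (funext fun j => ?_), inner_zero_right]
    rw [h1]
    exact lp.single_apply_ne (E := fun _ : ℕ => H) _ _ _
      ((Nat.succ_pos k).trans_le (Nat.left_le_pair _ _)).ne'
  · obtain ⟨x, rfl⟩ : ∃ x : ll H, (x : ℕ → H) = x₀ := ⟨⟨x₀, memℓp_gen (by simpa using hx₀)⟩, rfl⟩
    have a1 : ∀ p : {p : ll H × ll H // Q p.1 p.2}, ⟪p.1.2, amp c p.1.1⟫_ℂ = 0 := fun p => by
      refine hv.induction_on p (isClosed_eq (by fun_prop) continuous_const) fun k => ?_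
      obtain ⟨y, -, b2⟩ := exists_col (k + 1) (v k).1.1
      have b3 : ∀ l, ρ (l + 1) y = if l = k then (v k).1.1 else 0 := fun l =>
        lp.ext (funext fun j => by
          rw [h1, b2, Nat.unpair_pair]
          by_cases e : l = k
          · rw [if_pos e, if_pos (congrArg (· + 1) e)]
          · rw [if_neg e, if_neg fun e' => e (Nat.succ_injective e')]; rfl)
      have b4 := (hY _).1 (hc y ((hY _).2 fun l z hz => ?_)) k _ (v k).2
      · rwa [h2, b3, if_pos rfl] at b4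
      · rw [b3]
        split_ifs with e
        · rw [← e, ← hz 1 A.one_mem]
          congr 1
          exact lp.ext (funext fun j => (amp_apply (1 : H →L[ℂ] H) _ j).symm)
        · exact inner_zero_right _
    let K : Submodule ℂ (ll H) :=
      { carrier := {z | ∃ a ∈ A, amp a x = z}
        add_mem' := by
          rintro _ _ ⟨a, ha, rfl⟩ ⟨b, hb, rfl⟩
          exact ⟨a + b, add_mem ha hb, lp.ext (funext fun j => by simp)⟩
        zero_mem' := ⟨0, zero_mem _, lp.ext (funext fun j => by simp)⟩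
        smul_mem' := by
          rintro t _ ⟨a, ha, rfl⟩
          exact ⟨t • a, A.smul_mem ha t, lp.ext (funext fun j => by simp)⟩ }
    have a2 : amp c x ∈ K.topologicalClosure := by
      rw [← Submodule.orthogonal_orthogonal_eq_closure, Submodule.mem_orthogonal]
      exact fun y hy => a1 ⟨(x, y), fun a ha => (Submodule.mem_orthogonal' _ _).1 hy _ ⟨a, ha, rfl⟩⟩
    obtain ⟨_, ⟨a, ha, rfl⟩, a3⟩ := Metric.mem_closure_iff.1 a2 _ (Real.sqrt_pos.2 hε)
    refine ⟨a, ha, ?_⟩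
    rwa [norm_amp_sub, ← Real.lt_sqrt (norm_nonneg _), ← dist_eq_norm, dist_comm]
  · rw [h2, ← ContinuousLinearMap.adjoint_inner_left]
    refine (hY x).1 hx k _ fun a ha => ?_
    rw [ContinuousLinearMap.adjoint_inner_left, ← hy (c * a) (mul_mem hc ha)]
    congr 1
    exact lp.ext (funext fun j => by simp)

end Pool.Agent.P.MP_c2be6c_an.U
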