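import Mathlib

/-! Definitions for Boolean algebras of subspaces. -/

open MeasureTheory

namespace Pool.Agent.P.MP_c2be6c_an.U

section

variable {H : Type} [NormedAddCommGroup H] [InnerProductSpace ℂ H]

/-- `E` is a strongly closed complete Boolean algebra of closed subspaces: it consists of closed
subspaces, contains `0` and `H`, is closed under intersection and closed span, is distributive and
complemented for these operations, every subfamily has a supremum in `E` for inclusion, and every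
closed subspace whose orthogonal projection is a strong limit of projections onto members of `E`
belongs to `E`. -/
def IsSCBA (E : Set (Submodule ℂ H)) : Prop :=
  (∀ M ∈ E, IsClosed (M : Set H)) ∧
  (⊥ : Submodule ℂ H) ∈ E ∧ (⊤ : Submodule ℂ H) ∈ E ∧
  (∀ A ∈ E, ∀ B ∈ E, A ⊓ B ∈ E) ∧
  (∀ A ∈ E, ∀ B ∈ E, (A ⊔ B).topologicalClosure ∈ E) ∧
  (∀ A ∈ E, ∀ B ∈ E, ∀ C ∈ E,
    A ⊓ (B ⊔ C).topologicalClosure = ((A ⊓ B) ⊔ (A ⊓ C)).topologicalClosure) ∧
  (∀ A ∈ E, ∃ B ∈ E, A ⊓ B = ⊥ ∧ (A ⊔ B).topologicalClosure = ⊤) ∧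
  (∀ S ⊆ E, ∃ M ∈ E, (∀ N ∈ S, N ≤ M) ∧ ∀ M' ∈ E, (∀ N ∈ S, N ≤ M') → M ≤ M') ∧
  ∀ M : Submodule ℂ H, IsClosed (M : Set H) →
    (∀ s : Finset H, ∀ ε : ℝ, 0 < ε → ∃ N ∈ E, ∀ x ∈ s, ∀ y z : H,
      y ∈ N → x - y ∈ N.orthogonal → z ∈ M → x - z ∈ M.orthogonal → ‖y - z‖ < ε) →
    M ∈ E

/-- The bounded operators that leave every member of `E` invariant. -/
def Alg (E : Set (Submodule ℂ H)) : Set (H →L[ℂ] H) := {T | ∀ N ∈ E, ∀ x ∈ N, T x ∈ N}

/-- Every closed subspace invariant under `Alg E` belongs to `E`. -/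
def IsReflexive (E : Set (Submodule ℂ H)) : Prop :=
  ∀ M : Submodule ℂ H, IsClosed (M : Set H) → (∀ T ∈ Alg E, ∀ x ∈ M, T x ∈ M) → M ∈ E

/-- `E`, ordered by inclusion, is order isomorphic to the measure algebra of `μ`. -/
def Represents {Ω : Type} [MeasurableSpace Ω] (μ : Measure Ω) (E : Set (Submodule ℂ H)) : Prop :=
  ∃ M : Set Ω → Submodule ℂ H, E = M '' {S | MeasurableSet S} ∧
    ∀ S T, MeasurableSet S → MeasurableSet T → (M S ≤ M T ↔ μ (S \ T) = 0)

/-- `B` is the algebra `Alg E` of a strongly closed, complete, non reflexive Boolean algebra of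
subspaces `E` that is order isomorphic to the measure algebra of `μ`. -/
def Realizes {Ω : Type} [MeasurableSpace Ω] (μ : Measure Ω) (B : Set (H →L[ℂ] H)) : Prop :=
  ∃ E : Set (Submodule ℂ H), IsSCBA E ∧ Represents μ E ∧ ¬ IsReflexive E ∧ Alg E = B

/-- `A` is closed in the ultrastrong topology, given by the seminorms
`T ↦ (∑ ‖T xₙ‖ ^ 2) ^ (1 / 2)` for square summable sequences `x`. -/
def UltrastronglyClosed (A : Set (H →L[ℂ] H)) : Prop :=
  ∀ b : H →L[ℂ] H, (∀ x : ℕ → H, Summable (fun n => ‖x n‖ ^ 2) → ∀ ε : ℝ, 0 < ε →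
    ∃ a ∈ A, ∑' n, ‖a (x n) - b (x n)‖ ^ 2 < ε) → b ∈ A

/-- The operators on `K` that act on all coordinates `π x n` as one operator `a ∈ A`. -/
def coordAction {K : Type} [NormedAddCommGroup K] [InnerProductSpace ℂ K] (π : K → ℕ → H)
    (A : Set (H →L[ℂ] H)) : Set (K →L[ℂ] K) :=
  {T | ∃ a ∈ A, ∀ x n, π (T x) n = a (π x n)}

end

/-- Every measurable set of positive measure has a measurable subset of smaller positive measure. -/
def Atomless {Ω : Type} [MeasurableSpace Ω] (μ : Measure Ω) : Prop :=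
  ∀ A, MeasurableSet A → 0 < μ A → ∃ B ⊆ A, MeasurableSet B ∧ 0 < μ B ∧ μ B < μ A

end Pool.Agent.P.MP_c2be6c_an.U
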