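import Pool.Agent.P.MP_c2be6c_an.U.L2

/-! An injective operator with dense range on `L²` that is bounded below on the functions vanishing
on a set of positive measure gives a strongly closed complete Boolean algebra of subspaces. -/

open MeasureTheory Filter Topology
open scoped InnerProductSpace ENNReal

set_option linter.unusedSectionVars false
set_option linter.dupNamespace false

namespace Pool.Agent.P.MP_c2be6c_an.U

variable {Ω : Type} [MeasurableSpace Ω] {μ : Measure Ω} [IsProbabilityMeasure μ]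
variable {Y H : Type} [NormedAddCommGroup Y] [InnerProductSpace ℂ Y] [CompleteSpace Y]
  [NormedAddCommGroup H] [InnerProductSpace ℂ H] [CompleteSpace H]

/-- The three properties of the operator. -/
structure Good (Λ : Lp Y 2 μ →L[ℂ] H) : Prop where
  inj : ∀ f, Λ f = 0 → f = 0
  dense : ∀ y, (∀ f, ⟪y, Λ f⟫_ℂ = 0) → y = 0
  low : ∀ S, MeasurableSet S → μ Sᶜ ≠ 0 → ∃ C, 0 ≤ C ∧ ∀ f ∈ LS S, ‖f‖ ≤ C * ‖Λ f‖

/-- The subspace attached to a set. -/
noncomputable def MM (Λ : Lp Y 2 μ →L[ℂ] H) (S : Set Ω) : Submodule ℂ H :=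
  ((LS S).map (Λ : Lp Y 2 μ →ₗ[ℂ] H)).topologicalClosure

/-- The family of subspaces. -/
def EE (Λ : Lp Y 2 μ →L[ℂ] H) : Set (Submodule ℂ H) := MM Λ '' {S | MeasurableSet S}

variable {Λ : Lp Y 2 μ →L[ℂ] H}

theorem isClosed_MM (S : Set Ω) : IsClosed (MM Λ S : Set H) := Submodule.isClosed_topologicalClosure _

theorem mem_MM {S : Set Ω} {f : Lp Y 2 μ} (hf : f ∈ LS S) : Λ f ∈ MM Λ S :=
  Submodule.le_topologicalClosure _ ⟨f, hf, rfl⟩

theorem MM_le {S : Set Ω} {N : Submodule ℂ H} (hN : IsClosed (N : Set H))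
    (h : ∀ f ∈ LS S, Λ f ∈ N) : MM Λ S ≤ N :=
  Submodule.topologicalClosure_minimal _ (by rintro _ ⟨f, hf, rfl⟩; exact h f hf) hN

theorem MM_mono {S T : Set Ω} (h : μ (S \ T) = 0) : MM Λ S ≤ MM Λ T :=
  MM_le (isClosed_MM T) fun _ hf => mem_MM (LS_mono h hf)

theorem MM_mono' {S T : Set Ω} (h : S ⊆ T) : MM Λ S ≤ MM Λ T :=
  MM_mono (by rw [Set.sdiff_eq_empty.2 h, measure_empty])

theorem MM_empty : MM Λ ∅ = ⊥ := by
  refine le_bot_iff.1 (MM_le (by simp) fun f hf => ?_)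
  have : f = 0 := Lp.eq_zero_iff_ae_eq_zero.2 ((mem_LS.1 hf).mono fun x hx => hx (by simp))
  simp [this]

theorem MM_union {S T : Set Ω} (hS : MeasurableSet S) :
    (MM Λ S ⊔ MM Λ T).topologicalClosure = MM Λ (S ∪ T) := by
  refine le_antisymm (Submodule.topologicalClosure_minimal _
    (sup_le (MM_mono' Set.subset_union_left) (MM_mono' Set.subset_union_right)) (isClosed_MM _))
    (MM_le (Submodule.isClosed_topologicalClosure _) fun f hf => ?_)
  refine Submodule.le_topologicalClosure _ ?_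
  rw [← P_add hS f, map_add]
  refine Submodule.add_mem_sup (mem_MM (P_mem hS f)) (mem_MM ?_)
  filter_upwards [hf, P_coe hS.compl f] with x h1 h2 h3
  rw [h2]
  by_cases h : x ∈ S
  · simp [h]
  · rw [Set.indicator_of_mem h, h1 (not_or.2 ⟨h, h3⟩)]

theorem alg_of_lift {T : H →L[ℂ] H} {N : Lp Y 2 μ →L[ℂ] Lp Y 2 μ} (hN : Loc N)
    (h : ∀ f, T (Λ f) = Λ (N f)) : T ∈ Alg (EE Λ) := by
  rintro _ ⟨S, hS, rfl⟩
  exact MM_le (N := (MM Λ S).comap (T : H →ₗ[ℂ] H)) ((isClosed_MM S).preimage T.continuous)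
    fun f hf => by
      change T (Λ f) ∈ MM Λ S
      rw [h]; exact mem_MM (hN S hS f hf)

namespace Good

variable (g : Good Λ)
include g

theorem inj' {f f' : Lp Y 2 μ} (h : Λ f = Λ f') : f = f' :=
  sub_eq_zero.1 (g.inj _ (by rw [map_sub, h, sub_self]))

theorem top {S : Set Ω} (h : μ Sᶜ = 0) : MM Λ S = ⊤ := by
  rw [MM, Submodule.topologicalClosure_eq_top_iff, Submodule.eq_bot_iff]
  refine fun y hy => g.dense y fun f => (Submodule.mem_orthogonal' _ _).1 hy _ ⟨f, ?_, rfl⟩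
  filter_upwards [measure_eq_zero_iff_ae_notMem.1 h] with x h1 h2 using absurd h2 h1

theorem exact {S : Set Ω} (hS : MeasurableSet S) (h : μ Sᶜ ≠ 0) {x : H} (hx : x ∈ MM Λ S) :
    ∃ f ∈ LS S, Λ f = x := by
  obtain ⟨C, hC, hl⟩ := g.low S hS h
  have : CompleteSpace (LS S : Submodule ℂ (Lp Y 2 μ)) := (isClosed_LS hS).completeSpace_coe
  have h1 := ((Λ.comp (LS S).subtypeL).antilipschitz_of_bound (K := ⟨C, hC⟩)
    fun f => hl f f.2).isClosed_range (Λ.comp (LS S).subtypeL).uniformContinuous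
  obtain ⟨f, hf⟩ := MM_le (N := (Λ.comp (LS S).subtypeL).range) h1 (fun f hf => ⟨⟨f, hf⟩, rfl⟩) hx
  exact ⟨f, f.2, hf⟩

theorem inter {S T : Set Ω} (hS : MeasurableSet S) (hT : MeasurableSet T) :
    MM Λ S ⊓ MM Λ T = MM Λ (S ∩ T) := by
  refine le_antisymm ?_
    (le_inf (MM_mono' Set.inter_subset_left) (MM_mono' Set.inter_subset_right))
  by_cases h1 : μ Sᶜ = 0
  · exact inf_le_right.trans (MM_mono (measure_mono_null (fun x hx h => hx.2 ⟨h, hx.1⟩) h1))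
  by_cases h2 : μ Tᶜ = 0
  · exact inf_le_left.trans (MM_mono (measure_mono_null (fun x hx h => hx.2 ⟨hx.1, h⟩) h2))
  rintro x ⟨h3, h4⟩
  obtain ⟨f, hf, rfl⟩ := g.exact hS h1 h3
  obtain ⟨f', hf', e⟩ := g.exact hT h2 h4
  rw [g.inj' e] at hf'
  refine mem_MM (mem_LS.2 ?_)
  filter_upwards [mem_LS.1 hf, mem_LS.1 hf'] with x a b c
  by_contra h
  exact c ⟨not_not.1 fun d => h (a d), not_not.1 fun d => h (b d)⟩

theorem faithful [Nontrivial Y] {S T : Set Ω} (hS : MeasurableSet S) (hT : MeasurableSet T) :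
    MM Λ S ≤ MM Λ T ↔ μ (S \ T) = 0 := by
  refine ⟨fun h => ?_, MM_mono⟩
  by_cases h2 : μ Tᶜ = 0
  · exact measure_mono_null (fun x hx => hx.2) h2
  obtain ⟨ξ, hξ⟩ := exists_ne (0 : Y)
  obtain ⟨f, hf, e⟩ := g.exact hT h2 (h (mem_MM (P_mem hS (tn (one μ) ξ))))
  rw [g.inj' e] at hf
  rw [measure_eq_zero_iff_ae_notMem]
  filter_upwards [hf, P_coe hS (tn (one μ) ξ), tn_coe (one μ) ξ, one_coe (μ := μ)]
    with x h1 h3 h4 h5 h6
  rw [h3, Set.indicator_of_mem h6.1, h4, h5, one_smul] at h1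
  exact hξ (h1 h6.2)

/-- The key step for strong closedness. -/
theorem step {N : Submodule ℂ H}
    (h : ∀ s : Finset H, ∀ ε : ℝ, 0 < ε → ∃ M ∈ EE Λ, ∀ x ∈ s, ∀ y z : H,
      y ∈ M → x - y ∈ M.orthogonal → z ∈ N → x - z ∈ N.orthogonal → ‖y - z‖ < ε)
    {y : H} (hy : y ∈ N.orthogonal) {η : ℝ} (hη : 0 < η) {B : Set Ω} (hB : MeasurableSet B)
    (hB0 : μ B ≠ 0) (hBη : ∀ x ∈ B, η ≤ ‖Λ.adjoint y x‖) {x : H} (hx : x ∈ N) :
    ∃ f ∈ LS Bᶜ, Λ f = x := by
  classical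
  have main : ∀ ε > 0, ∃ T, MeasurableSet T ∧ μ.real (T ∩ B) ≤ ε ∧ ∃ w ∈ MM Λ T, ‖w - x‖ ≤ ε := by
    intro ε hε
    obtain ⟨δ, hδ, h1, h2⟩ : ∃ δ > 0, δ ≤ ε ∧ (δ * ‖Λ‖) ^ 2 ≤ η ^ 2 * ε := by
      have hc : Continuous fun δ : ℝ => (δ * ‖Λ‖) ^ 2 := by fun_prop
      have h1 : ∀ᶠ δ in 𝓝[>] (0 : ℝ), (δ * ‖Λ‖) ^ 2 < η ^ 2 * ε :=
        (hc.continuousAt.eventually (gt_mem_nhds (by simp; positivity))).filter_mono
          nhdsWithin_le_nhds
      obtain ⟨δ, a, b, c⟩ := (h1.and ((Ioc_mem_nhdsGT hε : _))).exists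
      exact ⟨δ, b, c, a.le⟩
    obtain ⟨_, ⟨T, hT, rfl⟩, hN⟩ := h {x, y} δ hδ
    have : CompleteSpace (MM Λ T) := (isClosed_MM T).completeSpace_coe
    have a1 := hN x (by simp) _ x ((MM Λ T).starProjection_apply_mem x)
      ((MM Λ T).sub_starProjection_mem_orthogonal x) hx (by simp)
    have a2 := hN y (by simp) _ 0 ((MM Λ T).starProjection_apply_mem y)
      ((MM Λ T).sub_starProjection_mem_orthogonal y) N.zero_mem (by simpa using hy)
    refine ⟨T, hT, ?_, _, (MM Λ T).starProjection_apply_mem x, a1.le.trans h1⟩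
    set k := P (T ∩ B) (Λ.adjoint y) with hk
    have hTB := hT.inter hB
    have hkm : Λ k ∈ MM Λ T := MM_mono' Set.inter_subset_left (mem_MM (P_mem hTB _))
    have a3 : ‖k‖ * ‖k‖ ≤ (δ * ‖Λ‖) * ‖k‖ := by
      have e := inner_P_self hTB (Λ.adjoint y)
      rw [← hk, ContinuousLinearMap.adjoint_inner_left,
        ← Submodule.starProjection_eq_self_iff.2 hkm,
        ← (MM Λ T).inner_starProjection_left_eq_right] at e
      have e2 := norm_inner_le_norm (𝕜 := ℂ) ((MM Λ T).starProjection y) (Λ k)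
      rw [e, Complex.norm_real, Real.norm_of_nonneg (by positivity), sq] at e2
      rw [sub_zero] at a2
      refine e2.trans ?_
      rw [mul_assoc]
      gcongr
      exact Λ.le_opNorm k
    have a4 : ‖k‖ ≤ δ * ‖Λ‖ := by
      rcases (norm_nonneg k).eq_or_lt with h0 | h0
      · rw [← h0]; positivity
      · exact le_of_mul_le_mul_right a3 h0
    have a5 := (cheb hTB hη.le fun x hx => hBη x hx.2).trans
      ((pow_le_pow_left₀ (norm_nonneg _) a4 2).trans h2)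
    exact le_of_mul_le_mul_left a5 (by positivity)
  have hBr : 0 < μ.real B := ENNReal.toReal_pos hB0 (measure_ne_top _ _)
  choose T hT hTB w hw hwx using fun n : ℕ => main (μ.real B / 2 / 2 / 2 ^ n) (by positivity)
  have hlim : Tendsto (fun n : ℕ => μ.real B / 2 / 2 / 2 ^ n) atTop (𝓝 0) :=
    (summable_geometric_two' _).tendsto_atTop_zero
  set U := Bᶜ ∪ ⋃ n, T n with hU
  have hUm : MeasurableSet U := hB.compl.union (MeasurableSet.iUnion hT)
  have hTU : ∀ n, T n ⊆ U := fun n => (Set.subset_iUnion T n).trans Set.subset_union_right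
  have hU0 : μ Uᶜ ≠ 0 := by
    intro h0
    have h1 : μ B ≤ ENNReal.ofReal (μ.real B / 2) := by
      have : B ⊆ Uᶜ ∪ ⋃ n, T n ∩ B := fun a ha => by
        by_cases hb : a ∈ U
        · obtain ⟨n, hn⟩ := Set.mem_iUnion.1 (hb.resolve_left (not_not.2 ha))
          exact Or.inr (Set.mem_iUnion.2 ⟨n, hn, ha⟩)
        · exact Or.inl hb
      refine (measure_mono this).trans ((measure_union_le _ _).trans ?_)
      rw [h0, zero_add, ← tsum_geometric_two' (μ.real B / 2),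
        ENNReal.ofReal_tsum_of_nonneg (fun n => by positivity) (summable_geometric_two' _)]
      refine (measure_iUnion_le _).trans (ENNReal.tsum_le_tsum fun n => ?_)
      rw [← ofReal_measureReal]
      exact ENNReal.ofReal_le_ofReal (hTB n)
    have := ENNReal.toReal_le_of_le_ofReal (by positivity) h1
    change μ.real B ≤ _ at this
    linarith
  have hxU : x ∈ MM Λ U := by
    refine (isClosed_MM U).mem_of_tendsto (f := w) (b := atTop) ?_
      (Eventually.of_forall fun n => MM_mono' (hTU n) (hw n))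
    exact tendsto_iff_norm_sub_tendsto_zero.2 (squeeze_zero (fun _ => norm_nonneg _) hwx hlim)
  obtain ⟨f, hf, rfl⟩ := g.exact hUm hU0 hxU
  obtain ⟨C, hC, hl⟩ := g.low U hUm hU0
  refine ⟨f, (P_zero hB).1 (norm_le_zero_iff.1 (le_of_forall_pos_le_add fun ε hε => ?_)), rfl⟩
  obtain ⟨δ, hδ, hs⟩ := P_small f (half_pos hε)
  obtain ⟨n, h1, h2⟩ := ((hlim.eventually (ge_mem_nhds hδ)).and
    ((by simpa using hlim.const_mul C : Tendsto (fun n : ℕ => C * (μ.real B / 2 / 2 / 2 ^ n)) atTop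
      (𝓝 0)).eventually (ge_mem_nhds (half_pos hε)))).exists
  obtain ⟨f', hf', e⟩ := g.exact (hT n) (fun h0 => hU0 (measure_mono_null
    (Set.compl_subset_compl.2 (hTU n)) h0)) (hw n)
  have a1 : ‖f' - f‖ ≤ ε / 2 := by
    refine (hl _ (sub_mem (LS_mono (by rw [Set.sdiff_eq_empty.2 (hTU n), measure_empty]) hf')
      hf)).trans (le_trans ?_ h2)
    rw [map_sub, e]
    exact mul_le_mul_of_nonneg_left (hwx n) hC
  have a2 : P B f = P (T n ∩ B) f - P (B \ T n) (f' - f) := by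
    ext1
    filter_upwards [P_coe hB f, P_coe ((hT n).inter hB) f, P_coe (hB.diff (hT n)) (f' - f),
      Lp.coeFn_sub (P (T n ∩ B) f) (P (B \ T n) (f' - f)), Lp.coeFn_sub f' f, hf']
      with x b1 b2 b3 b4 b5 b6
    rw [b4, Pi.sub_apply, b1, b2, b3]
    simp only [Set.indicator_apply, b5, Pi.sub_apply, Set.mem_inter_iff, Set.mem_sdiff]
    by_cases c1 : x ∈ B <;> by_cases c2 : x ∈ T n <;> simp [c1, c2, b6]
  rw [a2, zero_add, ← add_halves ε]
  exact (norm_sub_le _ _).trans (add_le_add (hs _ ((hT n).inter hB) ((hTB n).trans h1))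
    ((norm_P_le (hB.diff (hT n)) _).trans a1))

theorem closed {N : Submodule ℂ H} (hN : IsClosed (N : Set H))
    (h : ∀ s : Finset H, ∀ ε : ℝ, 0 < ε → ∃ M ∈ EE Λ, ∀ x ∈ s, ∀ y z : H,
      y ∈ M → x - y ∈ M.orthogonal → z ∈ N → x - z ∈ N.orthogonal → ‖y - z‖ < ε) : N ∈ EE Λ := by
  have : CompleteSpace N := hN.completeSpace_coe
  have hm : ∀ B ∈ {B | ∃ y ∈ N.orthogonal, ∃ η > (0 : ℝ), B = {x | η ≤ ‖Λ.adjoint y x‖}},
      MeasurableSet B := by
    rintro _ ⟨y, -, η, -, rfl⟩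
    exact measurableSet_le measurable_const (Lp.stronglyMeasurable _).norm.measurable
  obtain ⟨D, hD, hc, hs⟩ := Measure.exists_ae_subset_biUnion_countable μ hm
  have hS : MeasurableSet (⋃₀ D) := MeasurableSet.sUnion hc fun B hB => hm B (hD hB)
  refine ⟨(⋃₀ D)ᶜ, hS.compl, le_antisymm (MM_le hN fun f hf => ?_) fun x hx => ?_⟩
  · rw [← N.orthogonal_orthogonal, Submodule.mem_orthogonal]
    intro y hy
    rw [← ContinuousLinearMap.adjoint_inner_left, L2.inner_def]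
    refine integral_eq_zero_of_ae ?_
    filter_upwards [hf, ae_all_iff.2 fun n : ℕ => hs _ ⟨y, hy, 1 / ((n : ℝ) + 1),
      Nat.one_div_pos_of_nat, rfl⟩] with x h1 h2
    by_cases h3 : x ∈ ⋃₀ D
    · simp [h1 (not_not.2 h3)]
    · have : Λ.adjoint y x = 0 := by
        by_contra h4
        obtain ⟨n, hn⟩ := exists_nat_one_div_lt (norm_pos_iff.2 h4)
        exact h3 (h2 n hn.le)
      simp [this]
  · by_cases h0 : ∀ B ∈ D, μ B = 0
    · rw [g.top (by rw [compl_compl]; exact (measure_sUnion_null_iff hc).2 h0)]; trivial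
    push Not at h0
    obtain ⟨B, hB, hB0⟩ := h0
    obtain ⟨y, hy, η, hη, e⟩ := hD hB
    obtain ⟨f, -, rfl⟩ := g.step h hy hη (hm B (hD hB)) hB0 (fun x hx => by rwa [e] at hx) hx
    refine mem_MM ?_
    have : ∀ B ∈ D, ∀ᵐ x ∂μ, x ∈ B → f x = 0 := by
      intro B hB
      by_cases hB0 : μ B = 0
      · filter_upwards [measure_eq_zero_iff_ae_notMem.1 hB0] with x h1 h2 using absurd h2 h1
      obtain ⟨y, hy, η, hη, e⟩ := hD hB
      obtain ⟨f', hf', e'⟩ := g.step h hy hη (hm B (hD hB)) hB0 (fun x hx => by rwa [e] at hx) hx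
      rw [g.inj' e'] at hf'
      filter_upwards [hf'] with x h1 h2 using h1 (not_not.2 h2)
    filter_upwards [(ae_ball_iff hc).2 this] with x h1 h2
    obtain ⟨B, h3, h4⟩ := not_not.1 h2
    exact h1 B h3 h4

theorem represents [Nontrivial Y] : Represents μ (EE Λ) :=
  ⟨MM Λ, rfl, fun _ _ hS hT => g.faithful hS hT⟩

theorem isSCBA [Nontrivial Y] : IsSCBA (EE Λ) := by
  refine ⟨?_, ⟨∅, MeasurableSet.empty, MM_empty⟩, ⟨_, MeasurableSet.univ, g.top (by simp)⟩,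
    ?_, ?_, ?_, ?_, fun F hF => ?_, fun N hN h => g.closed hN h⟩
  · rintro _ ⟨S, -, rfl⟩; exact isClosed_MM S
  · rintro _ ⟨S, hS, rfl⟩ _ ⟨T, hT, rfl⟩; exact ⟨_, hS.inter hT, (g.inter hS hT).symm⟩
  · rintro _ ⟨S, hS, rfl⟩ _ ⟨T, hT, rfl⟩; exact ⟨_, hS.union hT, (MM_union hS).symm⟩
  · rintro _ ⟨S, hS, rfl⟩ _ ⟨T, hT, rfl⟩ _ ⟨U, hU, rfl⟩
    rw [MM_union hT, g.inter hS (hT.union hU), g.inter hS hT, g.inter hS hU,
      MM_union (hS.inter hT), Set.inter_union_distrib_left]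
  · rintro _ ⟨S, hS, rfl⟩
    refine ⟨_, ⟨Sᶜ, hS.compl, rfl⟩, ?_, ?_⟩
    · rw [g.inter hS hS.compl, Set.inter_compl_self, MM_empty]
    · rw [MM_union hS, Set.union_compl_self, g.top (by simp)]
  · obtain ⟨D, hD, hc, hs⟩ := Measure.exists_ae_subset_biUnion_countable μ
      (C := {S | MeasurableSet S ∧ MM Λ S ∈ F}) fun S hS => hS.1
    refine ⟨_, ⟨⋃₀ D, MeasurableSet.sUnion hc fun B hB => (hD hB).1, rfl⟩, fun N hN => ?_, ?_⟩
    · obtain ⟨S, hS, rfl⟩ := hF hN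
      exact MM_mono (ae_le_set.1 (hs S ⟨hS, hN⟩))
    · rintro _ ⟨T, hT, rfl⟩ h
      refine MM_mono ?_
      rw [Set.sUnion_eq_biUnion, Set.sdiff_eq, Set.iUnion₂_inter, measure_biUnion_null_iff hc]
      exact fun S hS => (g.faithful (hD hS).1 hT).1 (h _ (hD hS).2)

theorem lift {A : Set Ω} (hA : MeasurableSet A) (h1 : μ A ≠ 0) (h2 : μ Aᶜ ≠ 0) {T : H →L[ℂ] H}
    (hT : T ∈ Alg (EE Λ)) : ∃ N : Lp Y 2 μ →L[ℂ] Lp Y 2 μ, Loc N ∧ ∀ f, T (Λ f) = Λ (N f) := by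
  have key : ∀ S, MeasurableSet S → μ Sᶜ ≠ 0 → ∀ f ∈ LS S, ∃ f' ∈ LS S, Λ f' = T (Λ f) :=
    fun S hS h0 f hf => g.exact hS h0 (hT _ ⟨S, hS, rfl⟩ _ (mem_MM hf))
  have bd : ∀ S, MeasurableSet S → μ Sᶜ ≠ 0 → ∃ C, ∀ f, ∃ f', Λ f' = T (Λ (P S f)) ∧
      ‖f'‖ ≤ C * ‖f‖ := by
    intro S hS h0
    obtain ⟨C, hC, hl⟩ := g.low S hS h0
    refine ⟨C * ‖T.comp Λ‖, fun f => ?_⟩
    obtain ⟨f', hf', e⟩ := key S hS h0 _ (P_mem hS f)
    refine ⟨f', e, (hl f' hf').trans ?_⟩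
    rw [e, mul_assoc]
    gcongr
    exact ((T.comp Λ).le_opNorm _).trans (by gcongr; exact norm_P_le hS f)
  obtain ⟨C, hC⟩ := bd A hA h2
  obtain ⟨C', hC'⟩ := bd Aᶜ hA.compl (by rwa [compl_compl])
  have : ∀ f, ∃ f', T (Λ f) = Λ f' ∧ ‖f'‖ ≤ (C + C') * ‖f‖ := by
    intro f
    obtain ⟨a, a1, a2⟩ := hC f
    obtain ⟨b, b1, b2⟩ := hC' f
    refine ⟨a + b, by rw [map_add, a1, b1, ← map_add, ← map_add, P_add hA], ?_⟩
    exact (norm_add_le _ _).trans (by rw [add_mul]; exact add_le_add a2 b2)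
  choose n hn hb using this
  let N : Lp Y 2 μ →ₗ[ℂ] Lp Y 2 μ :=
    { toFun := n
      map_add' := fun a b => g.inj' (by simp only [← hn, map_add])
      map_smul' := fun c a => g.inj' (by simp only [← hn, map_smul, RingHom.id_apply]) }
  refine ⟨N.mkContinuous _ hb, fun S hS f hf => ?_, hn⟩
  by_cases h0 : μ Sᶜ = 0
  · filter_upwards [measure_eq_zero_iff_ae_notMem.1 h0] with x h1 h2 using absurd h2 h1
  obtain ⟨f', hf', e⟩ := key S hS h0 f hf
  rwa [g.inj' (e.trans (hn f))] at hf'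

end Good

theorem not_isReflexive {K : Type} [NormedAddCommGroup K] [NormedSpace ℂ K]
    {E : Set (Submodule ℂ H)} (hE : IsSCBA E) (p q : H →L[ℂ] K)
    (h : ∀ T ∈ Alg E, ∃ a : K →L[ℂ] K, (∀ x, p (T x) = a (p x)) ∧ ∀ x, q (T x) = a (q x))
    {u v : H} (h1 : p u = 0) (h2 : q v = 0) (h3 : p v = q u) (h4 : p v ≠ 0) : ¬ IsReflexive E := by
  intro hr
  have a1 : p.ker ∈ E := hr _ p.isClosed_ker fun T hT x hx => by
    obtain ⟨a, b1, -⟩ := h T hT
    change p (T x) = 0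
    rw [b1, show p x = 0 from hx, map_zero]
  have a2 : q.ker ∈ E := hr _ q.isClosed_ker fun T hT x hx => by
    obtain ⟨a, -, b1⟩ := h T hT
    change q (T x) = 0
    rw [b1, show q x = 0 from hx, map_zero]
  have a3 : (p - q).ker ∈ E := hr _ (p - q).isClosed_ker fun T hT x hx => by
    obtain ⟨a, b1, b2⟩ := h T hT
    change p (T x) - q (T x) = 0
    rw [b1, b2, ← map_sub, show p x - q x = 0 from hx, map_zero]
  have a4 : u + v ∈ (p - q).ker ⊓ (p.ker ⊔ q.ker).topologicalClosure :=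
    ⟨by change p (u + v) - q (u + v) = 0; simp [h1, h2, h3],
      Submodule.le_topologicalClosure _ (Submodule.add_mem_sup h1 h2)⟩
  rw [hE.2.2.2.2.2.1 _ a3 _ a1 _ a2] at a4
  have a5 : p (u + v) = 0 := Submodule.topologicalClosure_minimal _ (t := p.ker)
    (sup_le inf_le_right fun x hx => by
      have b1 : p x - q x = 0 := hx.1
      rwa [show q x = 0 from hx.2, sub_zero] at b1) p.isClosed_ker a4
  exact h4 (by simpa [h1] using a5)

theorem exists_rank_one {E : Set (Submodule ℂ H)} (hE : IsSCBA E) (hr : Represents μ E)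
    (h : ¬ Atomless μ) : ∃ x y : H, x ≠ 0 ∧ y ≠ 0 ∧ (innerSL ℂ y).smulRight x ∈ Alg E := by
  obtain ⟨M, rfl, hM⟩ := hr
  simp only [Atomless, not_forall, not_exists, not_and, not_lt] at h
  obtain ⟨A, hA, h0, h⟩ := h
  have h1 : ∀ S, MeasurableSet S → μ (S \ Aᶜ) = 0 ∨ μ (A \ S) = 0 := by
    intro S hS
    rw [Set.sdiff_compl, Set.inter_comm]
    refine (eq_zero_or_pos _).imp_right fun h2 => ?_
    have h3 := h _ Set.inter_subset_left (hA.inter hS) h2
    rw [← measure_inter_add_sdiff A hS] at h3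
    exact le_zero_iff.1 (ENNReal.le_of_add_le_add_left (measure_ne_top μ _) (by simpa using h3))
  obtain ⟨x, hx, hx0⟩ := (M A).ne_bot_iff.1 fun h2 => h0.ne' (by
    simpa using (hM A ∅ hA MeasurableSet.empty).1 (by simp [h2]))
  have : CompleteSpace (M Aᶜ) := (hE.1 _ ⟨_, hA.compl, rfl⟩).completeSpace_coe
  obtain ⟨y, hy, hy0⟩ := (M Aᶜ).orthogonal.ne_bot_iff.1 fun h2 => h0.ne' (by
    simpa using (hM A Aᶜ hA hA.compl).1 (by simp [Submodule.orthogonal_eq_bot_iff.1 h2]))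
  refine ⟨x, y, hx0, hy0, ?_⟩
  rintro _ ⟨S, hS, rfl⟩ z hz
  change ⟪y, z⟫_ℂ • x ∈ M S
  rcases h1 S hS with h2 | h2
  · rw [(Submodule.mem_orthogonal' _ _).1 hy z ((hM S Aᶜ hS hA.compl).2 h2 hz), zero_smul]
    exact zero_mem _
  · exact Submodule.smul_mem _ _ ((hM A S hA hS).2 h2 hx)

end Pool.Agent.P.MP_c2be6c_an.U
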