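import Pool.Agent.P.MP_c2be6c_an.U.Defs

/-! Tools for vector valued `L²` spaces and for `ℓ²` spaces. -/

open MeasureTheory Filter Topology
open scoped InnerProductSpace ENNReal

set_option linter.unusedSectionVars false
set_option linter.dupNamespace false

namespace Pool.Agent.P.MP_c2be6c_an.U

variable {Ω : Type} [MeasurableSpace Ω] {μ : Measure Ω} [IsProbabilityMeasure μ]
variable {Y Y' Y'' : Type} [NormedAddCommGroup Y] [InnerProductSpace ℂ Y] [CompleteSpace Y]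
  [NormedAddCommGroup Y'] [InnerProductSpace ℂ Y'] [CompleteSpace Y']
  [NormedAddCommGroup Y''] [InnerProductSpace ℂ Y''] [CompleteSpace Y'']

open Classical in
/-- Multiplication by an indicator function. -/
noncomputable def P (S : Set Ω) : Lp Y 2 μ →L[ℂ] Lp Y 2 μ :=
  if hS : MeasurableSet S then (ContinuousLinearMap.lsmul ℂ ℂ).holderL μ ∞ 2 2
    (indicatorConstLp ∞ hS (measure_ne_top μ S) (1 : ℂ)) else 0

theorem P_coe {S : Set Ω} (hS : MeasurableSet S) (f : Lp Y 2 μ) :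
    P S f =ᵐ[μ] S.indicator f := by
  rw [P, dif_pos hS, ContinuousLinearMap.holderL_apply_apply]
  filter_upwards [ContinuousLinearMap.coeFn_holder (r := 2) (ContinuousLinearMap.lsmul ℂ ℂ)
    (indicatorConstLp ∞ hS (measure_ne_top μ S) (1 : ℂ)) f,
    indicatorConstLp_coeFn (p := ∞) (hs := hS) (hμs := measure_ne_top μ S) (c := (1 : ℂ))]
    with x h1 h2
  rw [h1, h2]
  by_cases h : x ∈ S <;> simp [h]

/-- The functions that vanish off `S`. -/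
def LS (S : Set Ω) : Submodule ℂ (Lp Y 2 μ) where
  carrier := {f | ∀ᵐ x ∂μ, x ∉ S → f x = 0}
  add_mem' {f g} hf hg := by
    filter_upwards [hf, hg, Lp.coeFn_add f g] with x h1 h2 h3 h
    rw [h3, Pi.add_apply, h1 h, h2 h, add_zero]
  zero_mem' := by filter_upwards [Lp.coeFn_zero Y 2 μ] with x h _ using h
  smul_mem' c f hf := by
    filter_upwards [hf, Lp.coeFn_smul c f] with x h1 h3 h
    rw [h3, Pi.smul_apply, h1 h, smul_zero]

theorem mem_LS {S : Set Ω} {f : Lp Y 2 μ} : f ∈ LS S ↔ ∀ᵐ x ∂μ, x ∉ S → f x = 0 := Iff.rfl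

theorem P_mem {S : Set Ω} (hS : MeasurableSet S) (f : Lp Y 2 μ) : P S f ∈ LS S := by
  filter_upwards [P_coe hS f] with x h1 h
  rw [h1, Set.indicator_of_notMem h]

theorem P_add {S : Set Ω} (hS : MeasurableSet S) (f : Lp Y 2 μ) : P S f + P Sᶜ f = f := by
  ext1
  filter_upwards [P_coe hS f, P_coe hS.compl f, Lp.coeFn_add (P S f) (P Sᶜ f)] with x h1 h2 h3
  rw [h3, Pi.add_apply, h1, h2]
  by_cases h : x ∈ S <;> simp [h]

theorem P_zero {S : Set Ω} (hS : MeasurableSet S) {f : Lp Y 2 μ} :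
    P S f = 0 ↔ f ∈ LS Sᶜ := by
  rw [Lp.eq_zero_iff_ae_eq_zero, mem_LS]
  constructor
  · intro h0
    filter_upwards [P_coe hS f, h0] with x h1 h2 h
    rwa [h1, Set.indicator_of_mem (not_not.1 h)] at h2
  · intro h0
    filter_upwards [P_coe hS f, h0] with x h1 h2
    rw [h1]
    by_cases h : x ∈ S
    · rw [Set.indicator_of_mem h, h2 (not_not.2 h), Pi.zero_apply]
    · simp [h]

theorem P_self {S : Set Ω} (hS : MeasurableSet S) {f : Lp Y 2 μ} (hf : f ∈ LS S) : P S f = f := by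
  have := P_add hS f
  rwa [(P_zero hS.compl).2 (by rwa [compl_compl]), add_zero] at this

theorem norm_P_le {S : Set Ω} (hS : MeasurableSet S) (f : Lp Y 2 μ) : ‖P S f‖ ≤ ‖f‖ := by
  refine Lp.norm_le_norm_of_ae_le ?_
  filter_upwards [P_coe hS f] with x hx
  rw [hx]; exact norm_indicator_le_norm_self _ _

theorem P_adj {S : Set Ω} (hS : MeasurableSet S) (f g : Lp Y 2 μ) :
    ⟪P S f, g⟫_ℂ = ⟪f, P S g⟫_ℂ := by
  rw [L2.inner_def, L2.inner_def]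
  refine integral_congr_ae ?_
  filter_upwards [P_coe hS g, P_coe hS f] with x h1 h2
  rw [h1, h2]
  by_cases h : x ∈ S <;> simp [h]

theorem inner_P_self {S : Set Ω} (hS : MeasurableSet S) (f : Lp Y 2 μ) :
    ⟪f, P S f⟫_ℂ = ((‖P S f‖ ^ 2 : ℝ) : ℂ) := by
  conv_lhs => rw [← P_self hS (P_mem hS f), ← P_adj hS]
  rw [inner_self_eq_norm_sq_to_K]
  push_cast
  rfl

theorem P_small (f : Lp Y 2 μ) {ε : ℝ} (hε : 0 < ε) :
    ∃ δ > 0, ∀ S, MeasurableSet S → μ.real S ≤ δ → ‖P S f‖ ≤ ε := by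
  obtain ⟨δ, hδ, h⟩ := (Lp.memLp f).eLpNorm_indicator_le (by norm_num) (by norm_num) hε
  refine ⟨δ, hδ, fun S hS hm => ?_⟩
  rw [Lp.norm_def, eLpNorm_congr_ae (P_coe hS f)]
  refine ENNReal.toReal_le_of_le_ofReal hε.le (h S hS ?_)
  rw [← ofReal_measureReal]
  exact ENNReal.ofReal_le_ofReal hm

theorem LS_mono {S T : Set Ω} (h : μ (S \ T) = 0) : (LS S : Submodule ℂ (Lp Y 2 μ)) ≤ LS T := by
  intro f hf
  filter_upwards [hf, measure_eq_zero_iff_ae_notMem.1 h] with x h1 h2 h3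
  exact h1 fun h4 => h2 ⟨h4, h3⟩

theorem isClosed_LS {S : Set Ω} (hS : MeasurableSet S) :
    IsClosed ((LS S : Submodule ℂ (Lp Y 2 μ)) : Set (Lp Y 2 μ)) := by
  have : ((LS S : Submodule ℂ (Lp Y 2 μ)) : Set (Lp Y 2 μ)) = {f | P Sᶜ f = 0} := by
    ext f; simp [P_zero hS.compl]
  rw [this]
  exact isClosed_eq (P Sᶜ).continuous continuous_const

/-- Operators that do not increase supports. -/
def Loc (N : Lp Y 2 μ →L[ℂ] Lp Y' 2 μ) : Prop :=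
  ∀ S, MeasurableSet S → ∀ f ∈ LS S, N f ∈ LS S

theorem Loc.comm {N : Lp Y 2 μ →L[ℂ] Lp Y' 2 μ} (h : Loc N) {S : Set Ω} (hS : MeasurableSet S)
    (f : Lp Y 2 μ) : N (P S f) = P S (N f) := by
  conv_rhs => rw [← P_add hS f, map_add, map_add]
  rw [P_self hS (h S hS _ (P_mem hS f)), (P_zero hS).2 (h _ hS.compl _ (P_mem hS.compl f)),
    add_zero]

theorem Loc.comp {N : Lp Y 2 μ →L[ℂ] Lp Y' 2 μ} {N' : Lp Y' 2 μ →L[ℂ] Lp Y'' 2 μ} (h' : Loc N')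
    (h : Loc N) : Loc (N'.comp N) := fun S hS f hf => h' S hS _ (h S hS f hf)

/-- The pointwise action of an operator. -/
noncomputable abbrev lf (L : Y →L[ℂ] Y') : Lp Y 2 μ →L[ℂ] Lp Y' 2 μ := L.compLpL 2 μ

theorem loc_lf (L : Y →L[ℂ] Y') : Loc (μ := μ) (lf L) := fun S _ f hf => by
  filter_upwards [hf, L.coeFn_compLpL f] with x h1 h2 h
  rw [h2, h1 h, map_zero]

theorem norm_lf_le {L : Y →L[ℂ] Y'} (h : ∀ y, ‖L y‖ ≤ ‖y‖) (f : Lp Y 2 μ) : ‖lf L f‖ ≤ ‖f‖ := by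
  refine Lp.norm_le_norm_of_ae_le ?_
  filter_upwards [L.coeFn_compLpL f] with x h2
  rw [h2]; exact h _

theorem le_norm_lf {L : Y →L[ℂ] Y'} (h : ∀ y, ‖y‖ ≤ ‖L y‖) (f : Lp Y 2 μ) : ‖f‖ ≤ ‖lf L f‖ := by
  refine Lp.norm_le_norm_of_ae_le ?_
  filter_upwards [L.coeFn_compLpL f] with x h2
  rw [h2]; exact h _

theorem lf_lf (L' : Y' →L[ℂ] Y'') (L : Y →L[ℂ] Y') (f : Lp Y 2 μ) :
    lf L' (lf L f) = lf (L'.comp L) f := by
  ext1
  filter_upwards [L.coeFn_compLpL f, L'.coeFn_compLpL (lf L f), (L'.comp L).coeFn_compLpL f]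
    with x h1 h2 h3
  rw [h2, h1, h3]; rfl

theorem lf_adj (L : Y →L[ℂ] Y') (f : Lp Y 2 μ) (g : Lp Y' 2 μ) :
    ⟪g, lf L f⟫_ℂ = ⟪lf L.adjoint g, f⟫_ℂ := by
  rw [L2.inner_def, L2.inner_def]
  refine integral_congr_ae ?_
  filter_upwards [L.coeFn_compLpL f, L.adjoint.coeFn_compLpL g] with x h1 h2
  rw [h1, h2, ContinuousLinearMap.adjoint_inner_left]

/-- A scalar function times a vector. -/
noncomputable def tn : Lp ℂ 2 μ →L[ℂ] Y →L[ℂ] Lp Y 2 μ :=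
  ((ContinuousLinearMap.lsmul ℂ ℂ : ℂ →L[ℂ] Y →L[ℂ] Y).flip.compLpL₂ 2 μ).flip

theorem tn_coe (φ : Lp ℂ 2 μ) (ξ : Y) : tn φ ξ =ᵐ[μ] fun x => φ x • ξ :=
  ContinuousLinearMap.coeFn_compLp
    ((ContinuousLinearMap.lsmul ℂ ℂ : ℂ →L[ℂ] Y →L[ℂ] Y).flip ξ) φ

theorem inner_tn (φ ψ : Lp ℂ 2 μ) (ξ η : Y) :
    ⟪tn φ ξ, tn ψ η⟫_ℂ = ⟪φ, ψ⟫_ℂ * ⟪ξ, η⟫_ℂ := by
  rw [L2.inner_def, L2.inner_def, ← integral_mul_const]
  refine integral_congr_ae ?_
  filter_upwards [tn_coe φ ξ, tn_coe ψ η] with x h1 h2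
  rw [h1, h2, inner_smul_left, inner_smul_right, RCLike.inner_apply]
  ring

theorem norm_tn (φ : Lp ℂ 2 μ) (ξ : Y) : ‖tn φ ξ‖ = ‖φ‖ * ‖ξ‖ := by
  have := inner_tn φ φ ξ ξ
  simp only [inner_self_eq_norm_sq_to_K] at this
  have h2 : ‖tn φ ξ‖ ^ 2 = (‖φ‖ * ‖ξ‖) ^ 2 := by rw [mul_pow]; exact_mod_cast this
  exact (pow_left_inj₀ (norm_nonneg _) (by positivity) two_ne_zero).1 h2

theorem lf_tn (L : Y →L[ℂ] Y') (φ : Lp ℂ 2 μ) (ξ : Y) : lf L (tn φ ξ) = tn φ (L ξ) := by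
  ext1
  filter_upwards [L.coeFn_compLpL (tn φ ξ), tn_coe φ ξ, tn_coe φ (L ξ)] with x h1 h2 h3
  rw [h1, h2, h3, map_smul]

theorem P_tn {S : Set Ω} (hS : MeasurableSet S) (φ : Lp ℂ 2 μ) (ξ : Y) :
    P S (tn φ ξ) = tn (P S φ) ξ := by
  ext1
  filter_upwards [P_coe hS (tn φ ξ), tn_coe φ ξ, tn_coe (P S φ) ξ, P_coe hS φ] with x h1 h2 h3 h4
  rw [h1, h3, h4]
  by_cases h : x ∈ S <;> simp [h, h2]

theorem tn_one (φ : Lp ℂ 2 μ) : tn φ (1 : ℂ) = φ := by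
  ext1
  filter_upwards [tn_coe φ (1 : ℂ)] with x h1
  rw [h1, smul_eq_mul, mul_one]

theorem adj_tn (φ ψ : Lp ℂ 2 μ) (ξ : Y) : (tn ψ).adjoint (tn φ ξ) = ⟪ψ, φ⟫_ℂ • ξ := by
  refine ext_inner_left ℂ fun η => ?_
  rw [ContinuousLinearMap.adjoint_inner_right, inner_tn, inner_smul_right]

theorem adj_tn_lf (L : Y →L[ℂ] Y') (φ : Lp ℂ 2 μ) (f : Lp Y 2 μ) :
    (tn φ).adjoint (lf L f) = L ((tn φ).adjoint f) := by
  refine ext_inner_left ℂ fun η => ?_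
  rw [ContinuousLinearMap.adjoint_inner_right, ← ContinuousLinearMap.adjoint_inner_left L,
    ContinuousLinearMap.adjoint_inner_right, ← lf_tn, lf_adj]

variable (μ) in
/-- The constant function one. -/
noncomputable def one : Lp ℂ 2 μ := Lp.const 2 μ 1

theorem one_coe : one μ =ᵐ[μ] fun _ => 1 := Lp.coeFn_const 2 μ 1

theorem P_tn_one {S : Set Ω} (hS : MeasurableSet S) (ξ : Y) :
    P S (tn (one μ) ξ) = indicatorConstLp 2 hS (measure_ne_top μ S) ξ := by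
  ext1
  filter_upwards [P_coe hS (tn (one μ) ξ), tn_coe (one μ) ξ, one_coe (μ := μ),
    indicatorConstLp_coeFn (p := 2) (hs := hS) (hμs := measure_ne_top μ S) (c := ξ)]
    with x h1 h2 h3 h4
  rw [h1, h4]
  by_cases h : x ∈ S <;> simp [h, h2, h3]

theorem norm_P_tn_one {S : Set Ω} (hS : MeasurableSet S) (ξ : Y) :
    ‖P S (tn (one μ) ξ)‖ ^ 2 = ‖ξ‖ ^ 2 * μ.real S := by
  rw [P_tn_one hS, norm_indicatorConstLp (by norm_num) (by norm_num), mul_pow]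
  simp only [ENNReal.toReal_ofNat]
  rw [← Real.rpow_natCast (μ.real S ^ _), ← Real.rpow_mul measureReal_nonneg]
  norm_num

theorem tn_ext {Z : Type} [NormedAddCommGroup Z] [NormedSpace ℂ Z] {A B : Lp Y 2 μ →L[ℂ] Z}
    (h : ∀ S, MeasurableSet S → ∀ ξ, A (P S (tn (one μ) ξ)) = B (P S (tn (one μ) ξ))) : A = B := by
  ext1 f
  refine Lp.induction (by norm_num) (fun f => A f = B f) (fun c S hS _ => ?_)
    (fun f g _ _ _ h1 h2 => by rw [map_add, map_add, h1, h2])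
    (isClosed_eq A.continuous B.continuous) f
  have := h S hS c
  rwa [P_tn_one hS] at this

theorem Loc.eq_lf {N : Lp Y 2 μ →L[ℂ] Lp Y' 2 μ} (h : Loc N) {c : Y →L[ℂ] Y'}
    (hc : ∀ ξ, N (tn (one μ) ξ) = tn (one μ) (c ξ)) : N = lf c :=
  tn_ext fun S hS ξ => by rw [h.comm hS, (loc_lf c).comm hS, hc, lf_tn]

theorem cheb {S : Set Ω} (hS : MeasurableSet S) {f : Lp Y 2 μ} {η : ℝ} (hη : 0 ≤ η)
    (h : ∀ x ∈ S, η ≤ ‖f x‖) : η ^ 2 * μ.real S ≤ ‖P S f‖ ^ 2 := by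
  have h1 := norm_P_tn_one (μ := μ) hS (η : ℂ)
  rw [Complex.norm_real, Real.norm_of_nonneg hη] at h1
  rw [← h1]
  refine pow_le_pow_left₀ (norm_nonneg _) (Lp.norm_le_norm_of_ae_le ?_) 2
  filter_upwards [P_coe hS (tn (one μ) (η : ℂ)), tn_coe (one μ) (η : ℂ), one_coe (μ := μ),
    P_coe hS f] with x h1 h2 h3 h4
  rw [h1, h4]
  by_cases hx : x ∈ S
  · simpa [hx, h2, h3, abs_of_nonneg hη] using h x hx
  · simp [hx]

/-! ### Square summable families -/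

variable {ι κ : Type}

theorem sum_sq_le (x : lp (fun _ : ι => Y) 2) (s : Finset ι) : ∑ i ∈ s, ‖x i‖ ^ 2 ≤ ‖x‖ ^ 2 := by
  simpa using lp.sum_rpow_le_norm_rpow (by norm_num) x s

theorem hasSum_sq (x : lp (fun _ : ι => Y) 2) : HasSum (fun i => ‖x i‖ ^ 2) (‖x‖ ^ 2) := by
  simpa using lp.hasSum_norm (by norm_num) x

theorem norm_le_of_sum_sq {x : lp (fun _ : ι => Y) 2} {C : ℝ} (hC : 0 ≤ C)
    (h : ∀ s : Finset ι, ∑ i ∈ s, ‖x i‖ ^ 2 ≤ C ^ 2) : ‖x‖ ≤ C :=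
  lp.norm_le_of_forall_sum_le (by norm_num) hC (by simpa using h)

theorem exists_wc (b : ι → Y →L[ℂ] Y') (e : ι → κ) {C : ℝ} (hC : 0 ≤ C) (hb : ∀ i, ‖b i‖ ≤ C)
    (he : Set.InjOn e {i | b i ≠ 0}) :
    ∃ T : lp (fun _ : κ => Y) 2 →L[ℂ] lp (fun _ : ι => Y') 2,
      (∀ x i, T x i = b i (x (e i))) ∧ ∀ x, ‖T x‖ ≤ C * ‖x‖ := by
  classical
  have key : ∀ (x : lp (fun _ : κ => Y) 2) (s : Finset ι),
      ∑ i ∈ s, ‖b i (x (e i))‖ ^ 2 ≤ (C * ‖x‖) ^ 2 := by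
    intro x s
    rw [← Finset.sum_filter_of_ne (p := fun i => b i ≠ 0) (fun i _ h h0 => h (by simp [h0]))]
    calc _ ≤ ∑ i ∈ s with b i ≠ 0, C ^ 2 * ‖x (e i)‖ ^ 2 := by
          refine Finset.sum_le_sum fun i _ => ?_
          rw [← mul_pow]
          exact pow_le_pow_left₀ (norm_nonneg _) (((b i).le_opNorm _).trans (by gcongr; exact hb i)) 2
      _ ≤ _ := by
          rw [← Finset.mul_sum, mul_pow, ← Finset.sum_image (f := fun k => ‖x k‖ ^ 2)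
            (s := s.filter fun i => b i ≠ 0) (he.mono fun i hi => (Finset.mem_filter.1 hi).2)]
          gcongr
          exact sum_sq_le x _
  let T : lp (fun _ : κ => Y) 2 →ₗ[ℂ] lp (fun _ : ι => Y') 2 :=
    { toFun := fun x => ⟨fun i => b i (x (e i)), memℓp_gen' (by simpa using key x)⟩
      map_add' := fun x y => lp.ext (funext fun i => map_add (b i) _ _)
      map_smul' := fun c x => lp.ext (funext fun i => map_smul (b i) _ _) }
  have hT : ∀ x, ‖T x‖ ≤ C * ‖x‖ := fun x => norm_le_of_sum_sq (by positivity) (key x)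
  exact ⟨T.mkContinuous C hT, fun _ _ => rfl, hT⟩

theorem lp_ext [DecidableEq ι] {Z : Type} [NormedAddCommGroup Z] [NormedSpace ℂ Z]
    {A B : lp (fun _ : ι => Y) 2 →L[ℂ] Z}
    (h : ∀ i ξ, A (lp.single 2 i ξ) = B (lp.single 2 i ξ)) : A = B :=
  lp.ext_continuousLinearMap (by norm_num) fun i => ContinuousLinearMap.ext fun ξ => h i ξ

theorem exists_syn [DecidableEq ι] (V : ι → Y →L[ℂ] Y')
    (hV : ∀ i j ξ η, ⟪V i ξ, V j η⟫_ℂ = if i = j then ⟪ξ, η⟫_ℂ else 0) :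
    ∃ R : lp (fun _ : ι => Y) 2 →L[ℂ] Y', (∀ x, ‖R x‖ = ‖x‖) ∧
      (∀ i ξ, R (lp.single 2 i ξ) = V i ξ) ∧ (∀ z i, R.adjoint z i = (V i).adjoint z) ∧
      ∀ x, R.adjoint (R x) = x := by
  let W : ι → Y →ₗᵢ[ℂ] Y' := fun i =>
    (V i : Y →ₗ[ℂ] Y').isometryOfInner fun ξ η => by simpa using hV i i ξ η
  have hW : OrthogonalFamily ℂ (fun _ : ι => Y) W := fun i j hij ξ η =>
    (hV i j ξ η).trans (if_neg hij)
  have h1 : ∀ i ξ, hW.linearIsometry.toContinuousLinearMap (lp.single 2 i ξ) = V i ξ :=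
    fun i ξ => hW.linearIsometry_apply_single ξ
  refine ⟨hW.linearIsometry.toContinuousLinearMap, hW.linearIsometry.norm_map, h1, fun z i => ?_,
    fun x => ?_⟩
  · refine ext_inner_left ℂ fun ξ => ?_
    rw [ContinuousLinearMap.adjoint_inner_right, ← h1, ← ContinuousLinearMap.adjoint_inner_right,
      lp.inner_single_left]
  · refine ext_inner_left ℂ fun y => ?_
    rw [ContinuousLinearMap.adjoint_inner_right]
    exact hW.linearIsometry.inner_map_map y x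

/-- The coordinatewise action on `ℓ²`. -/
noncomputable def amp (b : Y →L[ℂ] Y) : lp (fun _ : ι => Y) 2 →L[ℂ] lp (fun _ : ι => Y) 2 :=
  (exists_wc (fun _ => b) id (norm_nonneg b) (fun _ => le_rfl) (Set.injOn_id _)).choose

@[simp] theorem amp_apply (b : Y →L[ℂ] Y) (x : lp (fun _ : ι => Y) 2) (i : ι) :
    amp b x i = b (x i) :=
  (exists_wc (fun _ => b) id (norm_nonneg b) (fun _ => le_rfl) (Set.injOn_id _)).choose_spec.1 x i

theorem amp_single [DecidableEq ι] (b : Y →L[ℂ] Y) (i : ι) (ξ : Y) :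
    amp b (lp.single 2 i ξ : lp (fun _ : ι => Y) 2) = lp.single 2 i (b ξ) := by
  refine lp.ext (funext fun j => ?_)
  rw [amp_apply]
  by_cases h : j = i
  · subst h; rw [lp.single_apply_self, lp.single_apply_self]
  · rw [lp.single_apply_ne _ _ _ h, lp.single_apply_ne _ _ _ h, map_zero]

end Pool.Agent.P.MP_c2be6c_an.U
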