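import Pool.Agent.P.MP_c2be6c_an.U.Gen

/-! Rademacher functions on an atomless probability space and the lacunary estimates. -/

open MeasureTheory Filter Topology
open scoped InnerProductSpace ENNReal symmDiff ComplexConjugate

set_option linter.unusedSectionVars false
set_option linter.dupNamespace false

namespace Pool.Agent.P.MP_c2be6c_an.U

variable {Ω : Type} [MeasurableSpace Ω] {μ : Measure Ω} [IsProbabilityMeasure μ]
variable {Y : Type} [NormedAddCommGroup Y] [InnerProductSpace ℂ Y] [CompleteSpace Y]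

theorem Atomless.small (h : Atomless μ) {A : Set Ω} (hA : MeasurableSet A) (h0 : 0 < μ.real A)
    {ε : ℝ} (hε : 0 < ε) : ∃ B ⊆ A, MeasurableSet B ∧ 0 < μ.real B ∧ μ.real B ≤ ε := by
  have key : ∀ n : ℕ, ∃ B ⊆ A, MeasurableSet B ∧ 0 < μ.real B ∧ μ.real B ≤ (1 / 2) ^ n := by
    intro n
    induction n with
    | zero => exact ⟨A, le_rfl, hA, h0, by simp⟩
    | succ n ih =>
      obtain ⟨B, h1, h2, h3, h4⟩ := ih
      obtain ⟨C, a1, a2, a3, a4⟩ := h B h2 (ENNReal.toReal_pos_iff.1 h3).1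
      have b3 : 0 < μ.real C := ENNReal.toReal_pos a3.ne' (measure_ne_top _ _)
      have b4 : μ.real C < μ.real B :=
        (ENNReal.toReal_lt_toReal (measure_ne_top _ _) (measure_ne_top _ _)).2 a4
      have b5 := measureReal_sdiff (μ := μ) a1 a2
      rw [pow_succ]
      by_cases hc : μ.real C ≤ μ.real B / 2
      · exact ⟨C, a1.trans h1, a2, b3, by linarith⟩
      · exact ⟨B \ C, Set.sdiff_subset.trans h1, h2.diff a2, by linarith, by linarith⟩
  obtain ⟨n, hn⟩ := exists_pow_lt_of_lt_one hε (by norm_num : (1 / 2 : ℝ) < 1)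
  obtain ⟨B, h1, h2, h3, h4⟩ := key n
  exact ⟨B, h1, h2, h3, h4.trans hn.le⟩

theorem Atomless.half (h : Atomless μ) {C : Set Ω} (hC : MeasurableSet C) :
    ∃ B ⊆ C, MeasurableSet B ∧ μ.real B = μ.real C / 2 := by
  let F := {B : Set Ω // B ⊆ C ∧ MeasurableSet B ∧ μ.real B ≤ μ.real C / 2}
  have step : ∀ (n : ℕ) (B : F), ∃ B' : F, B.1 ⊆ B'.1 ∧
      ∀ D : F, B.1 ⊆ D.1 → μ.real D.1 ≤ μ.real B'.1 + 1 / ((n : ℝ) + 1) := by
    intro n B
    have hb : BddAbove (Set.range fun D : {D : F // B.1 ⊆ D.1} => μ.real D.1.1) :=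
      ⟨μ.real C / 2, by rintro _ ⟨D, rfl⟩; exact D.1.2.2.2⟩
    have : Nonempty {D : F // B.1 ⊆ D.1} := ⟨⟨B, le_rfl⟩⟩
    obtain ⟨D, hD⟩ := exists_lt_of_lt_ciSup (f := fun D : {D : F // B.1 ⊆ D.1} => μ.real D.1.1)
      (sub_lt_self _ (Nat.one_div_pos_of_nat (n := n)))
    exact ⟨D.1, D.2, fun E hE => (le_ciSup hb ⟨E, hE⟩).trans (by linarith)⟩
  choose nx h1 h2 using step
  let s : ℕ → F := fun n => Nat.rec ⟨∅, by simp, MeasurableSet.empty, by simp; positivity⟩ nx n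
  have hm : Monotone fun n => (s n).1 := monotone_nat_of_le_succ fun n => h1 n (s n)
  have hU : MeasurableSet (⋃ n, (s n).1) := MeasurableSet.iUnion fun n => (s n).2.2.1
  have hUC : (⋃ n, (s n).1) ⊆ C := Set.iUnion_subset fun n => (s n).2.1
  have hle : μ.real (⋃ n, (s n).1) ≤ μ.real C / 2 :=
    le_of_tendsto' ((ENNReal.tendsto_toReal (measure_ne_top _ _)).comp
      (tendsto_measure_iUnion_atTop hm)) fun n => (s n).2.2.2
  refine ⟨_, hUC, hU, hle.eq_or_lt.resolve_right fun hlt => ?_⟩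
  have b5 := measureReal_sdiff (μ := μ) hUC hU
  obtain ⟨D, a1, a2, a3, a4⟩ := h.small (hC.diff hU)
    (by linarith [measureReal_nonneg (μ := μ) (s := ⋃ n, (s n).1)]) (sub_pos.2 hlt)
  have b6 := measureReal_union (μ := μ) (s₁ := ⋃ n, (s n).1)
    (Set.disjoint_left.2 fun x hx hx' => (a1 hx').2 hx) a2
  obtain ⟨n, hn⟩ := exists_nat_one_div_lt a3
  have b7 := h2 n (s n) ⟨_, Set.union_subset hUC (a1.trans Set.sdiff_subset), hU.union a2,
    by linarith⟩ ((Set.subset_iUnion (fun n => (s n).1) n).trans Set.subset_union_left)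
  have b8 : μ.real (nx n (s n)).1 ≤ μ.real (⋃ n, (s n).1) :=
    measureReal_mono (Set.subset_iUnion (fun n => (s n).1) (n + 1))
  linarith

theorem Atomless.halves (h : Atomless μ) (B : ℕ → Set Ω) (hB : ∀ i, MeasurableSet (B i)) (n : ℕ) :
    ∀ C, MeasurableSet C → ∃ D ⊆ C, MeasurableSet D ∧ ∀ F : Ω → ℂ, Integrable F μ →
      (∀ x ∈ C, ∀ y ∈ C, (∀ i < n, x ∈ B i ↔ y ∈ B i) → F x = F y) →
      ∫ x in C, F x ∂μ = 2 * ∫ x in D, F x ∂μ := by
  induction n with
  | zero =>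
    intro C hC
    obtain ⟨D, h1, h2, h3⟩ := h.half hC
    refine ⟨D, h1, h2, fun F _ hF => ?_⟩
    rcases C.eq_empty_or_nonempty with rfl | ⟨y, hy⟩
    · simp [Set.subset_empty_iff.1 h1]
    rw [setIntegral_congr_fun hC (g := fun _ => F y) fun x hx => hF x hx y hy (by simp),
      setIntegral_congr_fun h2 (g := fun _ => F y) fun x hx => hF x (h1 hx) y hy (by simp),
      setIntegral_const, setIntegral_const, h3, Complex.real_smul, Complex.real_smul]
    push_cast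
    ring
  | succ n ih =>
    intro C hC
    obtain ⟨D, a1, a2, a3⟩ := ih _ (hC.inter (hB n))
    obtain ⟨E, b1, b2, b3⟩ := ih _ (hC.diff (hB n))
    refine ⟨D ∪ E, Set.union_subset (a1.trans Set.inter_subset_left) (b1.trans Set.sdiff_subset),
      a2.union b2, fun F hi hF => ?_⟩
    rw [← integral_inter_add_sdiff (hB n) hi.integrableOn, setIntegral_union
      (Set.disjoint_left.2 fun x hx hx' => (b1 hx').2 (a1 hx).2) b2 hi.integrableOn hi.integrableOn,
      a3 F hi fun x hx y hy hxy => hF x hx.1 y hy.1 fun i hi => ?_,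
      b3 F hi fun x hx y hy hxy => hF x hx.1 y hy.1 fun i hi => ?_, mul_add]
    · rcases Nat.lt_succ_iff_lt_or_eq.1 hi with h1 | rfl
      · exact hxy i h1
      · exact iff_of_false hx.2 hy.2
    · rcases Nat.lt_succ_iff_lt_or_eq.1 hi with h1 | rfl
      · exact hxy i h1
      · exact iff_of_true hx.2 hy.2

open Classical in
/-- The sign function of a set. -/
noncomputable def sg (B : Set Ω) (x : Ω) : ℂ := if x ∈ B then 1 else -1

theorem norm_sg (B : Set Ω) (x : Ω) : ‖sg B x‖ = 1 := by unfold sg; split_ifs <;> simp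

theorem sg_sq (B : Set Ω) (x : Ω) : sg B x * sg B x = 1 := by unfold sg; split_ifs <;> simp

theorem conj_sg (B : Set Ω) (x : Ω) : conj (sg B x) = sg B x := by unfold sg; split_ifs <;> simp

theorem memLp_walsh {B : ℕ → Set Ω} (hB : ∀ i, MeasurableSet (B i)) (s : Finset ℕ) :
    MemLp (fun x => ∏ i ∈ s, sg (B i) x) 2 μ := by
  refine MemLp.of_bound (Finset.measurable_fun_prod s fun i _ =>
    Measurable.ite (hB i) measurable_const measurable_const).aestronglyMeasurable 1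
    (Eventually.of_forall fun x => ?_)
  simp [norm_sg]

/-- A Rademacher system. -/
structure Rad (μ : Measure Ω) where
  B : ℕ → Set Ω
  meas : ∀ i, MeasurableSet (B i)
  mean : ∀ s : Finset ℕ, s.Nonempty → ∫ x, ∏ i ∈ s, sg (B i) x ∂μ = 0

theorem Atomless.rad (h : Atomless μ) : Nonempty (Rad μ) := by
  classical
  have key : ∀ (n : ℕ) (B : ℕ → Set Ω), ∃ D, MeasurableSet D ∧ ((∀ i, MeasurableSet (B i)) →
      ∀ F : Ω → ℂ, Integrable F μ → (∀ x y, (∀ i < n, x ∈ B i ↔ y ∈ B i) → F x = F y) →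
      ∫ x, F x ∂μ = 2 * ∫ x in D, F x ∂μ) := by
    intro n B
    by_cases hB : ∀ i, MeasurableSet (B i)
    · obtain ⟨D, -, h1, h2⟩ := h.halves B hB n _ MeasurableSet.univ
      exact ⟨D, h1, fun _ F hi hF => by simpa using h2 F hi fun x _ y _ => hF x y⟩
    · exact ⟨∅, MeasurableSet.empty, fun h => absurd h hB⟩
  choose nx h1 h2 using key
  let B : ℕ → Set Ω :=
    Nat.strongRec fun n ih => nx n fun i => if h : i < n then ih i h else ∅
  have hB : ∀ n, B n = nx n fun i => if i < n then B i else ∅ := fun n => by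
    simp only [B]
    rw [Nat.strongRec_eq]
    rfl
  have hm : ∀ n, MeasurableSet (B n) := fun n => by rw [hB]; exact h1 _ _
  refine ⟨⟨B, hm, fun s hs => ?_⟩⟩
  have hi : Integrable (fun x => ∏ i ∈ s.erase (s.max' hs), sg (B i) x) μ :=
    (memLp_walsh hm _).integrable (by norm_num)
  have h3 := h2 (s.max' hs) (fun i => if i < s.max' hs then B i else ∅)
    (fun i => by split_ifs; exacts [hm i, MeasurableSet.empty]) _ hi fun x y hxy =>
      Finset.prod_congr rfl fun i hi => by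
        have h4 := s.lt_max'_of_mem_erase_max' hs hi
        have h5 := hxy i h4
        rw [if_pos h4] at h5
        simp only [sg, h5]
  rw [← hB] at h3
  have h4 := integral_add_compl (hm (s.max' hs)) hi
  rw [← integral_add_compl (hm (s.max' hs)) ((memLp_walsh hm s).integrable (by norm_num)),
    setIntegral_congr_fun (hm _) (g := fun x => ∏ i ∈ s.erase (s.max' hs), sg (B i) x)
      fun x hx => by simp only [← s.mul_prod_erase _ (s.max'_mem hs), sg, if_pos hx, one_mul],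
    setIntegral_congr_fun (hm _).compl (g := fun x => -∏ i ∈ s.erase (s.max' hs), sg (B i) x)
      fun x hx => by
        simp only [← s.mul_prod_erase _ (s.max'_mem hs), sg, if_neg hx, neg_mul, one_mul],
    integral_neg]
  linear_combination -h3 - h4

namespace Rad

variable (R : Rad μ)

/-- The Walsh functions. -/
noncomputable def W (s : Finset ℕ) : Lp ℂ 2 μ := (memLp_walsh R.meas s).toLp _

theorem W_coe (s : Finset ℕ) : R.W s =ᵐ[μ] fun x => ∏ i ∈ s, sg (R.B i) x := MemLp.coeFn_toLp _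

theorem W_empty : R.W ∅ = one μ := by
  ext1
  filter_upwards [R.W_coe ∅, one_coe (μ := μ)] with x h1 h2
  rw [h1, h2, Finset.prod_empty]

theorem prod_mul (s t : Finset ℕ) (x : Ω) :
    (∏ i ∈ s, sg (R.B i) x) * ∏ i ∈ t, sg (R.B i) x = ∏ i ∈ s ∆ t, sg (R.B i) x := by
  rw [← Finset.prod_inter_mul_prod_sdiff s t, ← Finset.prod_inter_mul_prod_sdiff t s,
    Finset.inter_comm t s, symmDiff_def, Finset.sup_eq_union,
    Finset.prod_union disjoint_sdiff_sdiff, mul_mul_mul_comm, ← Finset.prod_mul_distrib]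
  simp [sg_sq]

theorem inner_W_P {A : Set Ω} (hA : MeasurableSet A) (s t : Finset ℕ) :
    ⟪R.W s, P A (R.W t)⟫_ℂ = ∫ x in A, ∏ i ∈ s ∆ t, sg (R.B i) x ∂μ := by
  rw [L2.inner_def, ← integral_indicator hA]
  refine integral_congr_ae ?_
  filter_upwards [R.W_coe s, R.W_coe t, P_coe hA (R.W t)] with x h1 h2 h3
  rw [h3]
  by_cases h : x ∈ A
  · simp only [Set.indicator_of_mem h, h1, h2, RCLike.inner_apply, map_prod, conj_sg]
    rw [mul_comm, R.prod_mul]
  · simp [h]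

theorem inner_W (s t : Finset ℕ) : ⟪R.W s, R.W t⟫_ℂ = if s = t then 1 else 0 := by
  have := R.inner_W_P MeasurableSet.univ s t
  rw [P_self MeasurableSet.univ (mem_LS.2 (by simp)), Measure.restrict_univ] at this
  rw [this]
  split_ifs with h
  · simp [h]
  · exact R.mean _ (Finset.symmDiff_nonempty.2 h)

theorem tail (F : Lp Y 2 μ) {ε : ℝ} (hε : 0 < ε) : ∃ N, ∀ t : Finset (ℕ × ℕ),
    (∀ p ∈ t, p.1 ≠ p.2 ∧ N ≤ p.1) → ∑ p ∈ t, ‖(tn (R.W {p.1, p.2})).adjoint F‖ ^ 2 ≤ ε := by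
  obtain ⟨V, -, -, h, -⟩ := exists_syn (fun s => (tn (R.W s) : Y →L[ℂ] Lp Y 2 μ))
    fun s t ξ η => by rw [inner_tn, inner_W]; split_ifs <;> simp
  have hs := (hasSum_sq (V.adjoint F)).summable
  simp only [h] at hs
  obtain ⟨s₀, hs₀⟩ := hs.vanishing (e := Set.Iio (ε / 2)) (Iio_mem_nhds (half_pos hε))
  refine ⟨(s₀.biUnion id).sup id + 1, fun t ht => ?_⟩
  have key : ∀ u ⊆ t, Set.InjOn (fun p : ℕ × ℕ => ({p.1, p.2} : Finset ℕ)) u →
      ∑ p ∈ u, ‖(tn (R.W {p.1, p.2})).adjoint F‖ ^ 2 ≤ ε / 2 := by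
    intro u hu hi
    rw [← Finset.sum_image (f := fun s => ‖(tn (R.W s)).adjoint F‖ ^ 2) hi]
    refine le_of_lt (hs₀ _ (Finset.disjoint_left.2 fun s h1 h2 => ?_))
    obtain ⟨p, hp, rfl⟩ := Finset.mem_image.1 h1
    have h3 : p.1 ≤ (s₀.biUnion id).sup id :=
      Finset.le_sup (f := id) (Finset.mem_biUnion.2 ⟨_, h2, by simp⟩)
    have := (ht p (hu hp)).2
    omega
  rw [← Finset.sum_filter_add_sum_filter_not t fun p => p.1 < p.2, ← add_halves ε]
  refine add_le_add (key _ (Finset.filter_subset _ _) fun p hp q hq e => ?_)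
    (key _ (Finset.filter_subset _ _) fun p hp q hq e => ?_)
  all_goals
    have a1 := Finset.mem_filter.1 hp
    have a2 := Finset.mem_filter.1 hq
    have a3 := (ht p a1.1).1
    have a4 := (ht q a2.1).1
    have a5 := Finset.ext_iff.1 e
    have b1 := (a5 p.1).1 (by simp)
    have b2 := (a5 p.2).1 (by simp)
    simp only [Finset.mem_insert, Finset.mem_singleton] at b1 b2
    exact Prod.ext (by omega) (by omega)

theorem symm_pair {a b : ℕ} (h : a ≠ b) : ({a} : Finset ℕ) ∆ {b} = {a, b} := by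
  ext i; simp only [Finset.mem_symmDiff, Finset.mem_singleton, Finset.mem_insert]; omega

theorem lacunary {A : Set Ω} (hA : MeasurableSet A) (hA0 : 0 < μ.real A) :
    ∃ N : ℕ, ∀ (s : Finset ℕ) (c : ℕ → Y), (∀ n < N, c n = 0) →
      μ.real A / 2 * ∑ n ∈ s, ‖c n‖ ^ 2 ≤ ‖P A (∑ n ∈ s, tn (R.W {n}) (c n))‖ ^ 2 := by
  set α := μ.real A with hα
  obtain ⟨N, hN⟩ := R.tail (P A (one μ)) (ε := (α / 2) ^ 2) (by positivity)
  refine ⟨N, fun s' c hc => ?_⟩
  have hc' : ∀ n, c n ≠ 0 → N ≤ n := fun n h => not_lt.1 fun h' => h (hc n h')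
  rw [← Finset.sum_filter_of_ne (p := fun n => N ≤ n) fun n _ h => hc' n fun h0 => h (by simp [h0]),
    ← Finset.sum_filter_of_ne (p := fun n => N ≤ n) (f := fun n => tn (R.W {n}) (c n))
      fun n _ h => hc' n fun h0 => h (by simp [h0])]
  set s := s'.filter fun n => N ≤ n with hs
  set y := ∑ n ∈ s, tn (R.W {n}) (c n) with hy
  set γ : ℕ × ℕ → ℂ := fun p => ⟪R.W {p.1}, P A (R.W {p.2})⟫_ℂ with hγ
  have hexp : ⟪y, P A y⟫_ℂ = ∑ p ∈ s ×ˢ s, γ p * ⟪c p.1, c p.2⟫_ℂ := by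
    rw [Finset.sum_product, hy, map_sum, sum_inner]
    refine Finset.sum_congr rfl fun n _ => ?_
    rw [inner_sum]
    exact Finset.sum_congr rfl fun m _ => by rw [P_tn hA, inner_tn]
  rw [← Finset.diag_union_offDiag, Finset.sum_union (Finset.disjoint_diag_offDiag s),
    Finset.sum_diag, inner_P_self hA] at hexp
  have hdiag : ∑ n ∈ s, γ (n, n) * ⟪c n, c n⟫_ℂ = ((α * ∑ n ∈ s, ‖c n‖ ^ 2 : ℝ) : ℂ) := by
    rw [Finset.mul_sum]
    push_cast
    refine Finset.sum_congr rfl fun n _ => ?_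
    simp [hγ, R.inner_W_P hA, inner_self_eq_norm_sq_to_K, hα]
  have hoff : ‖∑ p ∈ s.offDiag, γ p * ⟪c p.1, c p.2⟫_ℂ‖ ≤ α / 2 * ∑ n ∈ s, ‖c n‖ ^ 2 := by
    have h1 : ‖∑ p ∈ s.offDiag, γ p * ⟪c p.1, c p.2⟫_ℂ‖ ≤
        ∑ p ∈ s.offDiag, ‖γ p‖ * (‖c p.1‖ * ‖c p.2‖) := by
      refine (norm_sum_le _ _).trans (Finset.sum_le_sum fun p _ => ?_)
      rw [norm_mul]
      gcongr
      exact norm_inner_le_norm _ _
    have h2 := Finset.sum_mul_sq_le_sq_mul_sq s.offDiag (fun p => ‖γ p‖)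
      (fun p => ‖c p.1‖ * ‖c p.2‖)
    have h3 : ∑ p ∈ s.offDiag, (‖c p.1‖ * ‖c p.2‖) ^ 2 ≤ (∑ n ∈ s, ‖c n‖ ^ 2) ^ 2 := by
      rw [sq (∑ n ∈ s, ‖c n‖ ^ 2), Finset.sum_mul_sum, ← Finset.sum_product']
      refine le_trans (le_of_eq (Finset.sum_congr rfl fun p _ => mul_pow _ _ _)) ?_
      refine Finset.sum_le_sum_of_subset_of_nonneg ?_ fun _ _ _ => by positivity
      intro p hp
      rw [Finset.mem_offDiag] at hp
      exact Finset.mem_product.2 ⟨hp.1, hp.2.1⟩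
    have h4 : ∑ p ∈ s.offDiag, ‖γ p‖ ^ 2 ≤ (α / 2) ^ 2 := by
      refine le_trans (le_of_eq (Finset.sum_congr rfl fun p hp => ?_)) (hN s.offDiag fun p hp => ?_)
      · rw [Finset.mem_offDiag] at hp
        have := ContinuousLinearMap.adjoint_inner_right (tn (R.W {p.1, p.2})) (1 : ℂ) (P A (one μ))
        rw [tn_one, ← R.W_empty, R.inner_W_P hA, symmDiff_comm, ← Finset.bot_eq_empty, bot_symmDiff,
          RCLike.inner_apply, map_one, mul_one] at this
        simp only [hγ, R.inner_W_P hA, symm_pair hp.2.2, ← this, ← R.W_empty, Finset.bot_eq_empty]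
      · rw [Finset.mem_offDiag] at hp
        exact ⟨hp.2.2, (Finset.mem_filter.1 hp.1).2⟩
    refine h1.trans (abs_le_of_sq_le_sq' ?_ (by positivity)).2
    refine h2.trans ?_
    rw [mul_pow]
    gcongr
  rw [hdiag] at hexp
  have h5 : ((‖P A y‖ ^ 2 - α * ∑ n ∈ s, ‖c n‖ ^ 2 : ℝ) : ℂ) =
      ∑ p ∈ s.offDiag, γ p * ⟪c p.1, c p.2⟫_ℂ := by
    rw [Complex.ofReal_sub, hexp]; ring
  rw [← h5, Complex.norm_real, Real.norm_eq_abs] at hoff
  have := (abs_le.1 hoff).1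
  linarith

end Rad

/-! ### The operator that damps the Rademacher coefficients -/

variable {Y' : Type} [NormedAddCommGroup Y'] [InnerProductSpace ℂ Y'] [CompleteSpace Y']

/-- Square summable sequences. -/
abbrev ll (Y : Type) [NormedAddCommGroup Y] := lp (fun _ : ℕ => Y) 2

/-- The damping factors. -/
noncomputable def dl (m : ℕ) : ℂ := (1 / 4) ^ m

theorem norm_dl (m : ℕ) : ‖dl m‖ = (1 / 4) ^ m := by simp [dl]

theorem dl_ne (m : ℕ) : dl m ≠ 0 := by simp [dl]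

theorem exists_DD : ∃ D : ll Y →L[ℂ] ll Y, ∀ x n, D x n = dl n.unpair.1 • x n := by
  obtain ⟨D, h, -⟩ := exists_wc (fun n : ℕ => dl n.unpair.1 • ContinuousLinearMap.id ℂ Y) id
    zero_le_one (fun n => by
      rw [norm_smul, norm_dl]
      exact mul_le_one₀ (pow_le_one₀ (by norm_num) (by norm_num)) (norm_nonneg _)
        ContinuousLinearMap.norm_id_le) (Set.injOn_id _)
  exact ⟨D, h⟩

/-- The diagonal damping operator. -/
noncomputable def DD : ll Y →L[ℂ] ll Y := exists_DD.choose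

theorem DD_apply (x : ll Y) (n : ℕ) : DD x n = dl n.unpair.1 • x n := exists_DD.choose_spec x n

theorem norm_adj_le {R : Y →L[ℂ] Y'} (h : ∀ x, ‖R x‖ = ‖x‖) (z : Y') : ‖R.adjoint z‖ ≤ ‖z‖ := by
  refine (R.adjoint.le_opNorm z).trans (mul_le_of_le_one_left (norm_nonneg _) ?_)
  rw [LinearIsometryEquiv.norm_map]
  exact R.opNorm_le_bound zero_le_one fun x => by rw [h, one_mul]

namespace Rad

variable (R : Rad μ)

theorem exists_RR : ∃ V : ll Y →L[ℂ] Lp Y 2 μ, (∀ x, ‖V x‖ = ‖x‖) ∧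
    (∀ i ξ, V (lp.single 2 i ξ) = tn (R.W {i}) ξ) ∧
    (∀ z i, V.adjoint z i = (tn (R.W {i})).adjoint z) ∧ ∀ x, V.adjoint (V x) = x :=
  exists_syn (fun n => (tn (R.W {n}) : Y →L[ℂ] Lp Y 2 μ)) fun s t ξ η => by
    rw [inner_tn, inner_W]
    by_cases h : s = t <;> simp [h]

/-- Rademacher sums. -/
noncomputable def RR : ll Y →L[ℂ] Lp Y 2 μ := R.exists_RR.choose

theorem RR_norm (x : ll Y) : ‖R.RR x‖ = ‖x‖ := R.exists_RR.choose_spec.1 x

theorem RR_single (i : ℕ) (ξ : Y) : R.RR (lp.single 2 i ξ) = tn (R.W {i}) ξ :=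
  R.exists_RR.choose_spec.2.1 i ξ

theorem RR_adj (z : Lp Y 2 μ) (i : ℕ) : R.RR.adjoint z i = (tn (R.W {i})).adjoint z :=
  R.exists_RR.choose_spec.2.2.1 z i

theorem adj_RR (x : ll Y) : R.RR.adjoint (R.RR x) = x := R.exists_RR.choose_spec.2.2.2 x

/-- The damping operator on `L²`. -/
noncomputable def Dl : Lp Y 2 μ →L[ℂ] Lp Y 2 μ :=
  1 - R.RR.comp R.RR.adjoint + R.RR.comp (DD.comp R.RR.adjoint)

theorem Dl_apply (g : Lp Y 2 μ) :
    R.Dl g = g - R.RR (R.RR.adjoint g) + R.RR (DD (R.RR.adjoint g)) := rfl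

theorem adj_Dl (g : Lp Y 2 μ) : R.RR.adjoint (R.Dl g) = DD (R.RR.adjoint g) := by
  simp [Dl_apply, adj_RR]

theorem Dl_RR (x : ll Y) : R.Dl (R.RR x) = R.RR (DD x) := by simp [Dl_apply, adj_RR]

theorem Dl_W (n : ℕ) (ξ : Y) : R.Dl (tn (R.W {n}) ξ) = dl n.unpair.1 • tn (R.W {n}) ξ := by
  rw [← RR_single, Dl_RR, ← map_smul]
  congr 1
  refine lp.ext (funext fun j => ?_)
  rw [DD_apply, lp.coeFn_smul, Pi.smul_apply]
  by_cases h : j = n
  · rw [h]
  · rw [lp.single_apply_ne _ _ _ h, smul_zero, smul_zero]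

theorem perp (g : Lp Y 2 μ) : ‖g - R.RR (R.RR.adjoint g)‖ ≤ 2 * ‖R.Dl g‖ := by
  have : g - R.RR (R.RR.adjoint g) = R.Dl g - R.RR (R.RR.adjoint (R.Dl g)) := by
    rw [adj_Dl, Dl_apply, add_sub_cancel_right]
  rw [this, two_mul]
  exact (norm_sub_le _ _).trans (by rw [RR_norm]; gcongr; exact norm_adj_le R.RR_norm _)

theorem lac {A : Set Ω} (hA : MeasurableSet A) (hA0 : 0 < μ.real A) :
    ∃ N : ℕ, ∀ x : ll Y, (∀ n < N, x n = 0) → μ.real A / 2 * ‖x‖ ≤ ‖P A (R.RR x)‖ := by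
  obtain ⟨N, hN⟩ := R.lacunary (Y := Y) hA hA0
  refine ⟨N, fun x hx => ?_⟩
  have h1 : HasSum (fun n => tn (R.W {n}) (x n)) (R.RR x) := by
    simpa only [RR_single] using R.RR.hasSum (lp.hasSum_single (by norm_num) x)
  have h2 : μ.real A / 2 * ‖x‖ ^ 2 ≤ ‖P A (R.RR x)‖ ^ 2 :=
    le_of_tendsto_of_tendsto' (Tendsto.const_mul _ (hasSum_sq x))
      ((((P A).continuous.tendsto _).comp h1).norm.pow 2) fun s => hN s x hx
  refine (abs_le_of_sq_le_sq' (le_trans ?_ h2) (norm_nonneg _)).2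
  rw [mul_pow]
  gcongr
  nlinarith [measureReal_le_one (μ := μ) (s := A)]

theorem good : Good (R.Dl : Lp Y 2 μ →L[ℂ] Lp Y 2 μ) where
  inj f hf := by
    have h1 : R.RR.adjoint f = 0 := lp.ext (funext fun n => by
      have := DD_apply (R.RR.adjoint f) n
      rw [← adj_Dl, hf, map_zero] at this
      exact (smul_eq_zero.1 this.symm).resolve_left (dl_ne _))
    simpa [Dl_apply, h1] using hf
  dense y hy := by
    have h1 : R.RR.adjoint y = 0 := lp.ext (funext fun n => by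
      refine ext_inner_right ℂ fun ξ => ?_
      have := hy (tn (R.W {n}) ξ)
      rw [Dl_W, inner_smul_right, mul_eq_zero, or_iff_right (dl_ne _)] at this
      rw [RR_adj, ContinuousLinearMap.adjoint_inner_left, this]
      simp)
    simpa [Dl_apply, h1] using hy y
  low S hS h0 := by
    have hA0 : 0 < μ.real Sᶜ := ENNReal.toReal_pos h0 (measure_ne_top _ _)
    obtain ⟨N, hN⟩ := R.lac (Y := Y) hS.compl hA0
    obtain ⟨T, hT, hTn⟩ := exists_wc (fun n : ℕ => if n < N then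
      (dl n.unpair.1)⁻¹ • ContinuousLinearMap.id ℂ Y else 0) id (C := 4 ^ N) (by positivity)
      (fun n => by
        split_ifs with h
        · rw [norm_smul, norm_inv, norm_dl, one_div, inv_pow, inv_inv]
          exact (mul_le_of_le_one_right (by positivity) ContinuousLinearMap.norm_id_le).trans
            (pow_le_pow_right₀ (by norm_num) ((Nat.unpair_left_le n).trans h.le))
        · simp) (Set.injOn_id _)
    refine ⟨(1 + 2 / μ.real Sᶜ) * (2 + 4 ^ N), by positivity, fun f hf => ?_⟩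
    set x := R.RR.adjoint f with hx
    set w := f - R.RR x + R.RR (T (DD x)) with hw
    have h1 : ‖w‖ ≤ (2 + 4 ^ N) * ‖R.Dl f‖ := by
      refine (norm_add_le _ _).trans ?_
      rw [add_mul, RR_norm]
      refine add_le_add (R.perp f) ((hTn _).trans ?_)
      rw [hx, ← adj_Dl]
      gcongr
      exact norm_adj_le R.RR_norm _
    have h2 := hN (x - T (DD x)) fun n hn => by
      rw [lp.coeFn_sub, Pi.sub_apply, hT, if_pos hn]
      simp [DD_apply, smul_smul, dl_ne]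
    have h3 : R.RR (x - T (DD x)) = f - w := by rw [hw, map_sub]; abel
    rw [← R.RR_norm, h3, map_sub, (P_zero hS.compl).2 (by rwa [compl_compl]), zero_sub,
      norm_neg] at h2
    have h4 : ‖f - w‖ ≤ 2 / μ.real Sᶜ * ‖w‖ := by
      rw [div_mul_eq_mul_div, le_div_iff₀ hA0]
      linarith [norm_P_le hS.compl w]
    calc ‖f‖ ≤ ‖w‖ + ‖f - w‖ := norm_le_norm_add_norm_sub' _ _
      _ ≤ (1 + 2 / μ.real Sᶜ) * ‖w‖ := by linarith
      _ ≤ _ := by rw [mul_assoc]; gcongr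

theorem RR_amp (b : Y →L[ℂ] Y) (x : ll Y) : lf b (R.RR x) = R.RR (amp b x) :=
  DFunLike.congr_fun (lp_ext (A := (lf b).comp R.RR) (B := R.RR.comp (amp b)) fun i ξ => by
    simp only [ContinuousLinearMap.comp_apply, amp_single, RR_single, lf_tn]) x

theorem adj_lf (b : Y →L[ℂ] Y) (f : Lp Y 2 μ) : R.RR.adjoint (lf b f) = amp b (R.RR.adjoint f) :=
  lp.ext (funext fun n => by rw [amp_apply, RR_adj, RR_adj, adj_tn_lf])

theorem Dl_lf (b : Y →L[ℂ] Y) (f : Lp Y 2 μ) : R.Dl (lf b f) = lf b (R.Dl f) := by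
  have : ∀ x : ll Y, DD (amp b x) = amp b (DD x) := fun x =>
    lp.ext (funext fun n => by rw [amp_apply, DD_apply, DD_apply, amp_apply, map_smul])
  simp only [Dl_apply, map_add, map_sub, RR_amp, adj_lf, this]

/-- Multiplication by a Rademacher function. -/
noncomputable def Mr (a : ℕ) : Lp Y 2 μ →L[ℂ] Lp Y 2 μ := P (R.B a) - P (R.B a)ᶜ

theorem Mr_coe (a : ℕ) (f : Lp Y 2 μ) : R.Mr a f =ᵐ[μ] fun x => sg (R.B a) x • f x := by
  filter_upwards [P_coe (R.meas a) f, P_coe (R.meas a).compl f,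
    Lp.coeFn_sub (P (R.B a) f) (P (R.B a)ᶜ f)] with x h1 h2 h3
  refine h3.trans ?_
  rw [Pi.sub_apply, h1, h2]
  by_cases h : x ∈ R.B a <;> simp [h, sg]

theorem le_norm_Mr (a : ℕ) (f : Lp Y 2 μ) : ‖f‖ ≤ ‖R.Mr a f‖ := by
  refine Lp.norm_le_norm_of_ae_le ?_
  filter_upwards [R.Mr_coe a f] with x h
  rw [h, norm_smul, norm_sg, one_mul]

theorem Mr_tn (a : ℕ) (s : Finset ℕ) (ξ : Y) :
    R.Mr a (tn (R.W s) ξ) = tn (R.W ({a} ∆ s)) ξ := by
  ext1
  filter_upwards [R.Mr_coe a (tn (R.W s) ξ), tn_coe (R.W s) ξ, tn_coe (R.W ({a} ∆ s)) ξ,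
    R.W_coe s, R.W_coe ({a} ∆ s)] with x h1 h2 h3 h4 h5
  rw [h1, h2, h3, h4, h5, ← R.prod_mul, Finset.prod_singleton, smul_smul]

theorem Mr_one (a : ℕ) (ξ : Y) : R.Mr a (tn (one μ) ξ) = tn (R.W {a}) ξ := by
  rw [← R.W_empty, Mr_tn, ← Finset.bot_eq_empty, symmDiff_bot]

theorem Mr_comm {N : Lp Y 2 μ →L[ℂ] Lp Y' 2 μ} (h : Loc N) (a : ℕ) (f : Lp Y 2 μ) :
    N (R.Mr a f) = R.Mr a (N f) := by
  simp only [Mr, sub_apply, map_sub, h.comm (R.meas a), h.comm (R.meas a).compl]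

theorem adj_Mr (a b : ℕ) (f : Lp Y 2 μ) :
    R.RR.adjoint (R.Mr a f) b = (tn (R.W ({a} ∆ {b}))).adjoint f := by
  refine ext_inner_left ℂ fun ξ => ?_
  rw [RR_adj, ContinuousLinearMap.adjoint_inner_right, ContinuousLinearMap.adjoint_inner_right,
    ← Mr_tn]
  simp only [Mr, sub_apply, inner_sub_left, inner_sub_right,
    P_adj (R.meas a), P_adj (R.meas a).compl]

include R in
theorem adj_one (ξ : Y) : (tn (one μ)).adjoint (tn (one μ) ξ) = ξ := by
  rw [adj_tn, ← R.W_empty, inner_W, if_pos rfl, one_smul]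

theorem rigid {F : Lp Y 2 μ} {C : ℝ} (h : ∀ m, ‖R.Dl (R.Mr (Nat.pair m 0) F)‖ ≤ C * (1 / 4) ^ m) :
    F = tn (one μ) ((tn (one μ)).adjoint F) := by
  set c := (tn (one μ)).adjoint F with hc
  rw [← sub_eq_zero, ← norm_le_zero_iff]
  refine le_of_forall_pos_le_add fun ε hε => ?_
  obtain ⟨N, hN⟩ := R.tail (F - tn (one μ) c) (ε := (ε / 2) ^ 2) (by positivity)
  have hl : Tendsto (fun m : ℕ => 2 * (C * (1 / 4 : ℝ) ^ m)) atTop (𝓝 0) := by
    simpa using ((tendsto_pow_atTop_nhds_zero_of_lt_one (r := (1 / 4 : ℝ)) (by norm_num)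
      (by norm_num)).const_mul C).const_mul 2
  obtain ⟨m, h1, h2⟩ := ((hl.eventually (ge_mem_nhds (half_pos hε))).and
    (eventually_ge_atTop N)).exists
  set a := Nat.pair m 0 with ha
  set g := R.Mr a (F - tn (one μ) c) with hg
  have a1 : ‖g - R.RR (R.RR.adjoint g)‖ ≤ ε / 2 := by
    have : g - R.RR (R.RR.adjoint g) = R.Mr a F - R.RR (R.RR.adjoint (R.Mr a F)) := by
      rw [hg, map_sub, Mr_one, ← RR_single, map_sub, map_sub, adj_RR]; abel
    rw [this]
    exact (R.perp _).trans (le_trans (by gcongr; exact h m) h1)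
  have a2 : ‖R.RR.adjoint g‖ ≤ ε / 2 := by
    refine norm_le_of_sum_sq (half_pos hε).le fun s => ?_
    rw [← Finset.sum_erase s (a := a) (by
      rw [hg, adj_Mr, symmDiff_self, Finset.bot_eq_empty, W_empty, map_sub, R.adj_one, ← hc]
      simp)]
    refine le_trans (le_of_eq ?_) (hN ((s.erase a).image fun b => (a, b)) fun p hp => ?_)
    · rw [Finset.sum_image fun _ _ _ _ e => (Prod.ext_iff.1 e).2]
      exact Finset.sum_congr rfl fun b hb => by
        rw [hg, adj_Mr, symm_pair (Finset.ne_of_mem_erase hb).symm]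
    · obtain ⟨b, hb, rfl⟩ := Finset.mem_image.1 hp
      exact ⟨(Finset.ne_of_mem_erase hb).symm, h2.trans (Nat.left_le_pair m 0)⟩
  refine (R.le_norm_Mr a _).trans ?_
  rw [← hg, zero_add, ← add_halves ε]
  refine (norm_le_norm_add_norm_sub' g (R.RR (R.RR.adjoint g))).trans ?_
  rw [RR_norm]
  exact add_le_add a2 a1

theorem norm_W (s : Finset ℕ) : ‖R.W s‖ = 1 := by
  refine (pow_eq_one_iff_of_nonneg (norm_nonneg _) two_ne_zero).1 ?_
  rw [← inner_self_eq_norm_sq (𝕜 := ℂ), R.inner_W, if_pos rfl, RCLike.one_re]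

theorem const_of {N : Lp Y 2 μ →L[ℂ] Lp Y' 2 μ} (hN : Loc N)
    (h : ∀ ξ, ∃ C, ∀ m, ‖R.Dl (N (tn (R.W {Nat.pair m 0}) ξ))‖ ≤ C * (1 / 4) ^ m) :
    ∃ c, N = lf c :=
  ⟨(tn (one μ)).adjoint.comp (N.comp (tn (one μ))), hN.eq_lf fun ξ => by
    obtain ⟨C, hC⟩ := h ξ
    exact R.rigid fun m => by rw [← R.Mr_comm hN, Mr_one]; exact hC m⟩

end Rad

theorem Atomless.split (h : Atomless μ) : ∃ A, MeasurableSet A ∧ μ A ≠ 0 ∧ μ Aᶜ ≠ 0 := by
  obtain ⟨A, -, h1, h2, h3⟩ := h _ MeasurableSet.univ (by simp)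
  refine ⟨A, h1, h2.ne', fun h0 => h3.ne ?_⟩
  rw [← measure_add_measure_compl h1, h0, add_zero]

theorem ext_of_dense {Z : Type} [NormedAddCommGroup Z] [InnerProductSpace ℂ Z] [CompleteSpace Z]
    {Λ : Y →L[ℂ] Y'} (h : ∀ y, (∀ f, ⟪y, Λ f⟫_ℂ = 0) → y = 0) {T T' : Y' →L[ℂ] Z}
    (hT : ∀ f, T (Λ f) = T' (Λ f)) : T = T' := by
  ext1 x
  refine ext_inner_left ℂ fun z => ?_
  rw [← sub_eq_zero, ← inner_sub_right, ← sub_apply, ← ContinuousLinearMap.adjoint_inner_left,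
    h ((T - T').adjoint z) fun f => by
      rw [ContinuousLinearMap.adjoint_inner_left, sub_apply, hT, sub_self, inner_zero_right],
    inner_zero_left]

end Pool.Agent.P.MP_c2be6c_an.U
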